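import Pool.Agent.W956.DCS.Comb

/-!
# Disjoint connected subgraphs and covering tuples of branching lists
-/

set_option autoImplicit false

namespace Pool.Agent.W956.DCS

/-- The question of Disjoint Connected Subgraphs: are there pairwise vertex-disjoint connected
subgraphs `D 0, …, D (k - 1)` of `G` with `Z i ⊆ V(D i)` for each `i`? -/
def HasDCS {n k : ℕ} (G : SimpleGraph (Fin n)) (Z : Fin k → Finset (Fin n)) : Prop :=
  ∃ D : Fin k → G.Subgraph, (∀ i, (D i).Connected) ∧ (∀ i, ∀ v ∈ Z i, v ∈ (D i).verts) ∧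
    ∀ i j, i ≠ j → Disjoint (D i).verts (D j).verts

variable {E : ℕ → ℕ → Bool} {A : ℕ → Bool} {n : ℕ} {G : SimpleGraph (Fin n)}

theorem Br.conn (hE : ∀ u v : Fin n, E u v = true ↔ G.Adj u v) {v : ℕ} {l : List ℕ}
    (h : Br E A n v l) (hv : v < n) : (G.induce {x : Fin n | x.val ∈ l}).Connected := by
  induction h with
  | @single v _ =>
    have : {x : Fin n | x.val ∈ [v]} = {⟨v, hv⟩} := by
      ext x
      simp [Fin.ext_iff]
    rw [this, SimpleGraph.induce_singleton_eq_top]
    exact SimpleGraph.connected_top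
  | @join v u r c h1 hu hE' h2 ih1 ih2 =>
    have : {x : Fin n | x.val ∈ r ++ c} = {x : Fin n | x.val ∈ r} ∪ {x : Fin n | x.val ∈ c} := by
      ext x
      simp
    rw [this]
    exact SimpleGraph.connected_induce_union (v := ⟨v, hv⟩) (w := ⟨u, hu⟩)
      (ih1 hv).preconnected (ih2 hu).preconnected h1.mem h2.mem ((hE ⟨v, hv⟩ ⟨u, hu⟩).1 hE')

theorem length_le_of_nodup {l : List ℕ} (h : l.Nodup) (hl : ∀ x ∈ l, x < n) : l.length ≤ n := by
  have := (List.subperm_of_subset h (fun x hx => List.mem_range.2 (hl x hx))).length_le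
  simpa using this

theorem grow (hE : ∀ u v : Fin n, E u v = true ↔ G.Adj u v) {S : Set (Fin n)}
    (hS : (G.induce S).Connected) {v : Fin n} (hv : v ∈ S) (hA : ∀ x ∈ S, A (x : Fin n) = true) :
    ∃ l, Br E A n v l ∧ l.Nodup ∧ ∀ x : Fin n, x.val ∈ l ↔ x ∈ S := by
  have key : ∀ (m : ℕ) (l : List ℕ), n - l.length = m → Br E A n v l → l.Nodup →
      (∀ x : Fin n, x.val ∈ l → x ∈ S) → ∃ l, Br E A n v l ∧ l.Nodup ∧
        ∀ x : Fin n, x.val ∈ l ↔ x ∈ S := by
    intro m
    induction m using Nat.strong_induction_on with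
    | _ m ih =>
      intro l hm hb hn hs
      by_cases hall : ∀ x : Fin n, x ∈ S → x.val ∈ l
      · exact ⟨l, hb, hn, fun x => ⟨hs x, hall x⟩⟩
      · push Not at hall
        obtain ⟨y, hy, hyl⟩ := hall
        obtain ⟨p⟩ := hS.preconnected ⟨v, hv⟩ ⟨y, hy⟩
        obtain ⟨d, _, h1, h2⟩ := p.exists_boundary_dart {x : S | x.val.val ∈ l} hb.mem hyl
        have hadj : G.Adj d.fst.val d.snd.val := d.adj
        obtain ⟨l', hb', hp⟩ := hb.insert d.fst.val.val d.snd.val.val h1 d.snd.val.isLt
          ((hE _ _).2 hadj) (hA _ d.snd.2)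
        have hn' : l'.Nodup := by
          rw [hp.nodup_iff, List.nodup_cons]
          exact ⟨h2, hn⟩
        have hlen : l'.length = l.length + 1 := by simpa using hp.length_eq
        have hle : l'.length ≤ n := length_le_of_nodup hn' (hb'.lt v.isLt)
        refine ih (n - l'.length) (by omega) l' rfl hb' hn' ?_
        intro x hx
        rw [hp.mem_iff, List.mem_cons] at hx
        rcases hx with hx | hx
        · have : x = d.snd.val := Fin.ext hx
          rw [this]
          exact d.snd.2
        · exact hs x hx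
  refine key _ [v.val] rfl (Br.single (hA v hv)) (by simp) ?_
  intro x hx
  have : x = v := Fin.ext (by simpa using hx)
  rw [this]
  exact hv

theorem perm_range {l : List ℕ} (hc : Covers n l) (hl : l.length = n) :
    (List.range n).Perm l :=
  (List.subperm_of_subset List.nodup_range (fun x hx => hc x (List.mem_range.1 hx))).perm_of_length_le
    (by simp [hl])

theorem exists_covers_iff {k : ℕ} {Z : Fin k → Finset (Fin n)} {N : ℕ → Bool}
    {z : Fin k → ℕ → Bool} (hE : ∀ u v : Fin n, E u v = true ↔ G.Adj u v)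
    (hz : ∀ i (v : Fin n), z i v = true ↔ v ∈ Z i)
    (hN : ∀ v : Fin n, N v = true ↔ ∀ i, v ∉ Z i)
    (hne : ∀ i, (Z i).Nonempty) (hdis : ∀ i j, i ≠ j → Disjoint (Z i) (Z j)) :
    (∃ l ∈ Fs E N n (List.ofFn z) n, Covers n l) ↔ HasDCS G Z := by
  constructor
  · rintro ⟨l, hl, hc⟩
    obtain ⟨hlen, Ps, d, rfl, hP, hd⟩ := (mem_Fs _ _ _).1 hl
    have hnod : (Ps.flatten ++ d).Nodup := (perm_range hc hlen).nodup_iff.1 List.nodup_range
    obtain ⟨hPl, hP⟩ := List.forall₂_iff_get.1 hP
    rw [List.length_ofFn] at hPl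
    have hP' : ∀ i : Fin k, ∃ v < n, z i v = true ∧
        Br E (fun v => N v || z i v) n v (Ps[i.val]'(by rw [← hPl]; exact i.isLt)) := by
      intro i
      have := hP i.val (by simp) (by rw [← hPl]; exact i.isLt)
      simpa using this
    have hfl := (List.nodup_append.1 hnod).1
    rw [List.nodup_flatten] at hfl
    have hpw := List.pairwise_iff_getElem.1 hfl.2
    have hdj : ∀ i j : Fin k, i ≠ j →
        (Ps[i.val]'(by rw [← hPl]; exact i.isLt)).Disjoint
          (Ps[j.val]'(by rw [← hPl]; exact j.isLt)) := by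
      intro i j hij
      rcases lt_or_gt_of_ne (fun h => hij (Fin.ext h)) with h | h
      · exact hpw i.val j.val _ _ h
      · exact (hpw j.val i.val _ _ h).symm
    refine ⟨fun i => (⊤ : G.Subgraph).induce
      {x : Fin n | x.val ∈ Ps[i.val]'(by rw [← hPl]; exact i.isLt)}, ?_, ?_, ?_⟩
    · intro i
      obtain ⟨v, hv, _, hb⟩ := hP' i
      rw [← SimpleGraph.connected_induce_iff]
      exact hb.conn hE hv
    · intro i v hv
      change v.val ∈ Ps[i.val]'(by rw [← hPl]; exact i.isLt)
      have h1 := hc v.val v.isLt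
      rcases List.mem_append.1 h1 with h | h
      · rw [List.mem_flatten] at h
        obtain ⟨p, hp, hvp⟩ := h
        obtain ⟨j, hj, rfl⟩ := List.getElem_of_mem hp
        have hj' : j < k := by rw [hPl]; exact hj
        obtain ⟨w, hw, _, hb⟩ := hP' ⟨j, hj'⟩
        have := hb.allowed v.val hvp
        rw [Bool.or_eq_true] at this
        rcases this with h | h
        · exact absurd hv ((hN v).1 h i)
        · have hvj := (hz ⟨j, hj'⟩ v).1 h
          by_cases hij : i = ⟨j, hj'⟩
          · subst hij
            exact hvp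
          · exact absurd hvj (Finset.disjoint_left.1 (hdis i ⟨j, hj'⟩ hij) hv)
      · exact absurd hv ((hN v).1 (hd v.val h).2 i)
    · intro i j hij
      rw [Set.disjoint_left]
      intro x hx hx'
      exact hdj i j hij hx hx'
  · rintro ⟨D, hconn, hsub, hD⟩
    have hallow : ∀ i, ∀ x ∈ (D i).verts, (N (x : Fin n) || z i x) = true := by
      intro i x hx
      rw [Bool.or_eq_true]
      by_cases hx' : N x = true
      · exact Or.inl hx'
      · right
        rw [hN] at hx'
        push Not at hx'
        obtain ⟨j, hj⟩ := hx'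
        have hxj := hsub j x hj
        by_cases hij : i = j
        · subst hij
          exact (hz i x).2 hj
        · exact absurd hxj (Set.disjoint_left.1 (hD i j hij) hx)
    choose r hr using hne
    have hgrow : ∀ i, ∃ l, Br E (fun v => N v || z i v) n (r i).val l ∧ l.Nodup ∧
        ∀ x : Fin n, x.val ∈ l ↔ x ∈ (D i).verts := fun i =>
      grow hE (hconn i).induce_verts (hsub i _ (hr i)) (hallow i)
    choose p hpB hpN hpM using hgrow
    set Ps := List.ofFn p with hPs
    set d := (List.range n).filter (fun x => decide (x ∉ Ps.flatten)) with hd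
    have hmemfl : ∀ x, x ∈ Ps.flatten ↔ ∃ i, x ∈ p i := by
      intro x
      rw [List.mem_flatten]
      constructor
      · rintro ⟨q, hq, hx⟩
        rw [hPs, List.mem_ofFn] at hq
        obtain ⟨i, rfl⟩ := hq
        exact ⟨i, hx⟩
      · rintro ⟨i, hx⟩
        exact ⟨p i, by rw [hPs, List.mem_ofFn]; exact ⟨i, rfl⟩, hx⟩
    have hcov : Covers n (Ps.flatten ++ d) := by
      intro v hv
      rw [List.mem_append]
      by_cases h : v ∈ Ps.flatten
      · exact Or.inl h
      · right
        rw [hd, List.mem_filter]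
        exact ⟨List.mem_range.2 hv, by simpa using h⟩
    have hlt : ∀ x ∈ Ps.flatten ++ d, x < n := by
      intro x hx
      rcases List.mem_append.1 hx with h | h
      · obtain ⟨i, hi⟩ := (hmemfl x).1 h
        exact (hpB i).lt (r i).isLt x hi
      · rw [hd, List.mem_filter, List.mem_range] at h
        exact h.1
    have hnod : (Ps.flatten ++ d).Nodup := by
      rw [List.nodup_append']
      refine ⟨?_, List.nodup_range.filter _, ?_⟩
      · rw [List.nodup_flatten]
        refine ⟨?_, ?_⟩
        · intro q hq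
          rw [hPs, List.mem_ofFn] at hq
          obtain ⟨i, rfl⟩ := hq
          exact hpN i
        · rw [hPs, List.pairwise_ofFn]
          intro i j hij x hx hx'
          have hxn := (hpB i).lt (r i).isLt x hx
          have h1 := (hpM i ⟨x, hxn⟩).1 hx
          have h2 := (hpM j ⟨x, hxn⟩).1 hx'
          exact Set.disjoint_left.1 (hD i j (ne_of_lt hij)) h1 h2
      · intro x hx hx'
        rw [hd, List.mem_filter] at hx'
        simp only [decide_eq_true_eq] at hx'
        exact hx'.2 hx
    have hlen : (Ps.flatten ++ d).length = n := by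
      apply le_antisymm (length_le_of_nodup hnod hlt)
      have := (List.subperm_of_subset List.nodup_range
        (fun x hx => hcov x (List.mem_range.1 hx))).length_le
      simpa using this
    refine ⟨Ps.flatten ++ d, (mem_Fs _ _ _).2 ⟨hlen, Ps, d, rfl, ?_, ?_⟩, hcov⟩
    · rw [List.forall₂_iff_get]
      refine ⟨by simp [hPs], ?_⟩
      intro i h1 h2
      refine ⟨(r ⟨i, by simpa using h1⟩).val, (r _).isLt, ?_, ?_⟩
      · simp only [List.get_eq_getElem, List.getElem_ofFn]
        exact (hz _ _).2 (hr _)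
      · simp only [List.get_eq_getElem, List.getElem_ofFn, hPs]
        exact hpB _
    · intro x hx
      have hxn := hlt x (List.mem_append.2 (Or.inr hx))
      refine ⟨hxn, ?_⟩
      rw [hd, List.mem_filter] at hx
      simp only [decide_eq_true_eq] at hx
      by_contra hNx
      have hNx' : ¬ N ((⟨x, hxn⟩ : Fin n) : ℕ) = true := hNx
      rw [hN] at hNx'
      push Not at hNx'
      obtain ⟨j, hj⟩ := hNx'
      exact hx.2 ((hmemfl x).2 ⟨j, (hpM j ⟨x, hxn⟩).2 (hsub j _ hj)⟩)

end Pool.Agent.W956.DCS
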