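import Pool.Agent.W956.DCS.While
import Pool.Agent.W956.DCS.Graph

/-!
# The algorithm
-/

set_option autoImplicit false

namespace Pool.Agent.W956.DCS

open Pool.Agent.NPC

/-- Boolean matrices as lists of rows. -/
abbrev Mat : Type := List (List Bool)

/-- An entry. -/
def ent (M : Mat) (i j : ℕ) : Bool := (M.getD i []).getD j false

/-- The function of a characteristic vector. -/
def zf (z : List Bool) (v : ℕ) : Bool := z.getD v false

/-- `v` is in none of the sets. -/
def nt (Z : Mat) (v : ℕ) : Bool := Z.all (fun z => !(z.getD v false))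

/-- Parameters: adjacency matrix, terminal sets, current terminal set, vertex subset. -/
abbrev Par : Type := Mat × Mat × List Bool × List Bool

theorem ent_poly : Poly (fun q : Mat × ℕ × ℕ => ent q.1 q.2.1 q.2.2) :=
  NPC.Poly.getD (NPC.Poly.getD (NPC.Poly.fst NPC.Poly.id) (NPC.Poly.fst (NPC.Poly.snd NPC.Poly.id)) (NPC.Poly.const []))
    (NPC.Poly.snd (NPC.Poly.snd NPC.Poly.id)) (NPC.Poly.const false)

theorem zf_poly : Poly (fun q : List Bool × ℕ => zf q.1 q.2) :=
  NPC.Poly.getD (NPC.Poly.fst NPC.Poly.id) (NPC.Poly.snd NPC.Poly.id) (NPC.Poly.const false)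

theorem nt_poly : Poly (fun q : Mat × ℕ => nt q.1 q.2) :=
  NPC.Poly.all (p := fun (a : Mat × ℕ) (z : List Bool) => !(z.getD a.2 false)) (NPC.Poly.fst NPC.Poly.id)
    (NPC.Poly.not (NPC.Poly.getD (NPC.Poly.snd NPC.Poly.id) (NPC.Poly.snd (NPC.Poly.fst NPC.Poly.id)) (NPC.Poly.const false)))

section Helpers

variable {α β : Type} [TEnc α] [TEnc β]

theorem mapRange {γ : Type} [TEnc γ] {l : α → List β} {F : α → ℕ → γ} (hl : Poly l)
    (hF : Poly (fun p : α × ℕ => F p.1 p.2)) :
    Poly (fun a => (List.range (l a).length).map (F a)) :=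
  NPC.Poly.map (NPC.Poly.range_length hl) hF

theorem sumRange {l : α → List β} {F : α → ℕ → ℕ} (hl : Poly l)
    (hF : Poly (fun p : α × ℕ => F p.1 p.2)) :
    Poly (fun a => ((List.range (l a).length).map (F a)).sum) :=
  NPC.Poly.sum (mapRange hl hF)

theorem getD_map_range {γ : Type} (m : ℕ) (f : ℕ → γ) (d : γ) {t : ℕ} (ht : t < m) :
    ((List.range m).map f).getD t d = f t := by
  rw [List.getD_eq_getElem?_getD, List.getElem?_map, List.getElem?_range ht]
  rfl

end Helpers

/-- Is `v` allowed for the current set? -/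
def al (p : Par) (v : ℕ) : Bool := nt p.2.1 v || zf p.2.2.1 v

/-- The first row. -/
def row0 (p : Par) : List ℕ :=
  (List.range p.1.length).map (fun v => bif (al p v && zf p.2.2.2 v) then 1 else 0)

theorem al_poly : Poly (fun q : Par × ℕ => al q.1 q.2) :=
  NPC.Poly.or (nt_poly.comp (NPC.Poly.pair (NPC.Poly.fst (NPC.Poly.snd (NPC.Poly.fst NPC.Poly.id))) (NPC.Poly.snd NPC.Poly.id)))
    (zf_poly.comp (NPC.Poly.pair (NPC.Poly.fst (NPC.Poly.snd (NPC.Poly.snd (NPC.Poly.fst NPC.Poly.id))))
      (NPC.Poly.snd NPC.Poly.id)))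

theorem row0_poly : Poly row0 :=
  mapRange (F := fun (p : Par) v => bif (al p v && zf p.2.2.2 v) then 1 else 0) (NPC.Poly.fst NPC.Poly.id)
    (NPC.Poly.cond (NPC.Poly.and al_poly (zf_poly.comp (NPC.Poly.pair
      (NPC.Poly.snd (NPC.Poly.snd (NPC.Poly.snd (NPC.Poly.fst NPC.Poly.id)))) (NPC.Poly.snd NPC.Poly.id))))
      (NPC.Poly.const 1) (NPC.Poly.const 0))

/-- Sum over the neighbours. -/
def nb (q : ((Mat × List (List ℕ)) × ℕ) × ℕ) : ℕ :=
  ((List.range q.1.1.1.length).map (fun u => bif ent q.1.1.1 q.1.2 u then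
    (q.1.1.2.getD q.2 []).getD u 0 else 0)).sum

theorem nb_poly : Poly nb :=
  sumRange (F := fun (q : ((Mat × List (List ℕ)) × ℕ) × ℕ) u => bif ent q.1.1.1 q.1.2 u then
    (q.1.1.2.getD q.2 []).getD u 0 else 0) (NPC.Poly.fst (NPC.Poly.fst (NPC.Poly.fst NPC.Poly.id)))
    (NPC.Poly.cond (ent_poly.comp (NPC.Poly.pair (NPC.Poly.fst (NPC.Poly.fst (NPC.Poly.fst (NPC.Poly.fst NPC.Poly.id))))
      (NPC.Poly.pair (NPC.Poly.snd (NPC.Poly.fst (NPC.Poly.fst NPC.Poly.id))) (NPC.Poly.snd NPC.Poly.id))))
      (NPC.Poly.getD (NPC.Poly.getD (NPC.Poly.snd (NPC.Poly.fst (NPC.Poly.fst (NPC.Poly.fst NPC.Poly.id))))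
        (NPC.Poly.snd (NPC.Poly.fst NPC.Poly.id)) (NPC.Poly.const [])) (NPC.Poly.snd NPC.Poly.id) (NPC.Poly.const 0))
      (NPC.Poly.const 0))

/-- A new entry. -/
def newEnt (q : (Mat × List (List ℕ)) × ℕ) : ℕ :=
  ((List.range q.1.2.length).map (fun t => nb (q, t) *
    (q.1.2.getD (q.1.2.length - 1 - t) []).getD q.2 0)).sum

theorem newEnt_poly : Poly newEnt :=
  sumRange (F := fun (q : (Mat × List (List ℕ)) × ℕ) t => nb (q, t) *
    (q.1.2.getD (q.1.2.length - 1 - t) []).getD q.2 0) (NPC.Poly.snd (NPC.Poly.fst NPC.Poly.id))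
    (NPC.Poly.mul nb_poly (NPC.Poly.getD (NPC.Poly.getD (NPC.Poly.snd (NPC.Poly.fst (NPC.Poly.fst NPC.Poly.id)))
      (NPC.Poly.sub (NPC.Poly.sub (NPC.Poly.length (NPC.Poly.snd (NPC.Poly.fst (NPC.Poly.fst NPC.Poly.id)))) (NPC.Poly.const 1))
        (NPC.Poly.snd NPC.Poly.id)) (NPC.Poly.const [])) (NPC.Poly.snd (NPC.Poly.fst NPC.Poly.id)) (NPC.Poly.const 0)))

/-- The new row. -/
def newRow (q : Mat × List (List ℕ)) : List ℕ :=
  (List.range q.1.length).map (fun v => newEnt (q, v))

theorem newRow_poly : Poly newRow :=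
  mapRange (F := fun (q : Mat × List (List ℕ)) v => newEnt (q, v)) (NPC.Poly.fst NPC.Poly.id) newEnt_poly

/-- One more row. -/
def addRow (p : Par) (R : List (List ℕ)) : List (List ℕ) := R ++ [newRow (p.1, R)]

theorem addRow_poly : Poly (fun q : Par × List (List ℕ) => addRow q.1 q.2) :=
  NPC.Poly.append (NPC.Poly.snd NPC.Poly.id) (NPC.Poly.cons (newRow_poly.comp (NPC.Poly.pair (NPC.Poly.fst (NPC.Poly.fst NPC.Poly.id))
    (NPC.Poly.snd NPC.Poly.id))) (NPC.Poly.const []))

/-- The table of all counts. -/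
def table (p : Par) : List (List ℕ) := (addRow p)^[p.1.length] [row0 p]

/-! ### Values of the table -/

theorem cnt_Ls_zero (X : ℕ → Bool) (E : ℕ → ℕ → Bool) (A : ℕ → Bool) (n v : ℕ) :
    cnt X (Ls E A n 0 v) = bif (A v && X v) then 1 else 0 := by
  rw [Ls]
  cases hA : A v <;> cases hX : X v <;> simp [cnt, hX]

theorem cnt_Ls_succ (X : ℕ → Bool) (E : ℕ → ℕ → Bool) (A : ℕ → Bool) (n s v : ℕ) :
    cnt X (Ls E A n (s + 1) v) = ((List.range (s + 1)).map (fun t =>
      ((List.range n).map (fun u => bif E v u then cnt X (Ls E A n t u) else 0)).sum *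
        cnt X (Ls E A n (s - t) v))).sum := by
  rw [Ls, cnt_flatMap, ← List.map_coe_finRange_eq_range (n := s + 1), List.map_map]
  congr 1
  refine List.map_congr_left fun t _ => ?_
  rw [cnt_flatMap, Function.comp_apply, ← List.sum_map_mul_right]
  congr 1
  refine List.map_congr_left fun u _ => ?_
  cases h : E v u
  · simp [cnt_nil]
  · simp [cnt_cat, mul_comm]

/-- The row of counts. -/
def rowv (p : Par) (s : ℕ) : List ℕ := (List.range p.1.length).map (fun v =>
  cnt (zf p.2.2.2) (Ls (ent p.1) (al p) p.1.length s v))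

theorem iter_table (p : Par) (k : ℕ) :
    (addRow p)^[k] [row0 p] = (List.range (k + 1)).map (rowv p) := by
  induction k with
  | zero =>
    simp only [Function.iterate_zero, id_eq, zero_add, List.range_one, List.map_cons, List.map_nil]
    congr 1
    unfold row0 rowv
    refine List.map_congr_left fun v _ => ?_
    rw [cnt_Ls_zero]
  | succ k ih =>
    rw [Function.iterate_succ_apply', ih, addRow, List.range_succ (n := k + 1), List.map_append,
      List.map_singleton]
    congr 2
    unfold newRow rowv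
    refine List.map_congr_left fun v hv => ?_
    rw [List.mem_range] at hv
    simp only at hv
    rw [cnt_Ls_succ]
    unfold newEnt
    simp only [List.length_map, List.length_range]
    congr 1
    refine List.map_congr_left fun t ht => ?_
    rw [List.mem_range] at ht
    rw [getD_map_range _ _ _ (by omega : k + 1 - 1 - t < k + 1), getD_map_range _ _ _ hv]
    unfold nb
    simp only
    rw [getD_map_range _ _ _ ht]
    congr 2
    refine List.map_congr_left fun u hu => ?_
    rw [List.mem_range] at hu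
    rw [getD_map_range _ _ _ hu]

/-! ### Bounds -/

theorem lsum_eq (f : ℕ → ℕ) (n : ℕ) : ((List.range n).map f).sum = ∑ i ∈ Finset.range n, f i := by
  induction n with
  | zero => rfl
  | succ n ih =>
    rw [List.range_succ, List.map_append, List.sum_append, ih, Finset.sum_range_succ]
    simp

theorem sum_cnt_le (X : ℕ → Bool) (E : ℕ → ℕ → Bool) (A : ℕ → Bool) (n : ℕ) : ∀ s ≤ n,
    ((List.range n).map (fun v => cnt X (Ls E A n s v))).sum ≤ (n + 1) ^ (2 * s + 1) := by
  intro s
  induction s using Nat.strong_induction_on with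
  | _ s ih =>
    intro hs
    cases s with
    | zero =>
      calc ((List.range n).map (fun v => cnt X (Ls E A n 0 v))).sum
          ≤ ((List.range n).map (fun _ => 1)).sum := by
            apply List.sum_le_sum
            intro v _
            rw [cnt_Ls_zero]
            cases (A v && X v) <;> simp
        _ ≤ (n + 1) ^ (2 * 0 + 1) := by simp
    | succ s =>
      have h1 : ∀ v, cnt X (Ls E A n (s + 1) v) ≤ ((List.range (s + 1)).map (fun t =>
          ((List.range n).map (fun u => cnt X (Ls E A n t u))).sum *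
            cnt X (Ls E A n (s - t) v))).sum := by
        intro v
        rw [cnt_Ls_succ]
        apply List.sum_le_sum
        intro t _
        apply Nat.mul_le_mul_right
        apply List.sum_le_sum
        intro u _
        cases E v u <;> simp
      calc ((List.range n).map (fun v => cnt X (Ls E A n (s + 1) v))).sum
          ≤ ((List.range n).map (fun v => ((List.range (s + 1)).map (fun t =>
            ((List.range n).map (fun u => cnt X (Ls E A n t u))).sum *
            cnt X (Ls E A n (s - t) v))).sum)).sum := by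
            apply List.sum_le_sum
            intro v _
            exact h1 v
        _ = ((List.range (s + 1)).map (fun t =>
            ((List.range n).map (fun u => cnt X (Ls E A n t u))).sum *
              ((List.range n).map (fun v => cnt X (Ls E A n (s - t) v))).sum)).sum := by
            simp only [lsum_eq]
            rw [Finset.sum_comm]
            refine Finset.sum_congr rfl fun t _ => ?_
            rw [Finset.mul_sum]
        _ ≤ ((List.range (s + 1)).map (fun t => (n + 1) ^ (2 * s + 2))).sum := by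
            apply List.sum_le_sum
            intro t ht
            rw [List.mem_range] at ht
            calc _ ≤ (n + 1) ^ (2 * t + 1) * (n + 1) ^ (2 * (s - t) + 1) :=
                  Nat.mul_le_mul (ih t (by omega) (by omega)) (ih (s - t) (by omega) (by omega))
              _ = (n + 1) ^ (2 * s + 2) := by
                  rw [← pow_add]
                  congr 1
                  omega
        _ = (s + 1) * (n + 1) ^ (2 * s + 2) := by simp
        _ ≤ (n + 1) * (n + 1) ^ (2 * s + 2) := Nat.mul_le_mul_right _ (by omega)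
        _ = (n + 1) ^ (2 * (s + 1) + 1) := by ring

theorem two_pow_bound {n s : ℕ} (hs : s ≤ n) :
    (n + 1) ^ (2 * s + 1) ≤ 2 ^ ((n + 1) * (2 * n + 1)) := by
  calc (n + 1) ^ (2 * s + 1) ≤ (2 ^ (n + 1)) ^ (2 * s + 1) :=
        Nat.pow_le_pow_left Nat.lt_two_pow_self.le _
    _ = 2 ^ ((n + 1) * (2 * s + 1)) := by rw [← pow_mul]
    _ ≤ _ := Nat.pow_le_pow_right (by norm_num) (Nat.mul_le_mul_left _ (by omega))

theorem cnt_Ls_le (X : ℕ → Bool) (E : ℕ → ℕ → Bool) (A : ℕ → Bool) (n s v : ℕ) (hs : s ≤ n)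
    (hv : v < n) : cnt X (Ls E A n s v) ≤ 2 ^ ((n + 1) * (2 * n + 1)) := by
  refine le_trans ?_ ((sum_cnt_le X E A n s hs).trans (two_pow_bound hs))
  exact List.single_le_sum (by simp) _ (List.mem_map_of_mem (List.mem_range.2 hv))

theorem sz_of_le {m B : ℕ} (h : m ≤ 2 ^ B) : sz m ≤ 4 * B + 5 := by
  have h1 : m.size ≤ B + 1 := by
    rw [Nat.size_le, pow_succ]
    have : 0 < 2 ^ B := by positivity
    omega
  have := sz_nat_le m
  omega

theorem sz_listNat {l : List ℕ} {L B : ℕ} (hl : l.length ≤ L) (h : ∀ x ∈ l, x ≤ 2 ^ B) :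
    sz l ≤ L * (4 * B + 6) + 1 := by
  have h1 := sz_le_length_mul l (4 * B + 5) (fun a ha => sz_of_le (h a ha))
  have h2 : l.length * (4 * B + 5 + 1) ≤ L * (4 * B + 6) := Nat.mul_le_mul hl le_rfl
  omega

theorem length_le_sz {β : Type} [TEnc β] (l : List β) : l.length ≤ sz l := (length_lt_sz l).le

theorem n_le_sz (p : Par) : p.1.length ≤ sz p := by
  have h1 := length_le_sz p.1
  have h2 : sz p = sz p.1 + sz p.2 + 1 := sz_pair p.1 p.2
  omega

theorem table_poly : NPC.Poly table := by
  refine NPC.Poly.iterLen (l := fun p : Par => p.1) (s := fun p => [row0 p])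
    (F := fun p R => addRow p R) (NPC.Poly.fst NPC.Poly.id)
    (NPC.Poly.cons row0_poly (NPC.Poly.const [])) addRow_poly
    ((Polynomial.X + 1) * (Polynomial.X * (4 * ((Polynomial.X + 1) * (2 * Polynomial.X + 1)) + 6)
      + 2) + 1) ?_
  intro p k hk
  refine le_trans ?_ (eval_mono _ (n_le_sz p))
  set n := p.1.length with hn
  rw [iter_table]
  have h1 : ∀ r ∈ (List.range (k + 1)).map (rowv p),
      sz r ≤ n * (4 * ((n + 1) * (2 * n + 1)) + 6) + 1 := by
    intro r hr
    rw [List.mem_map] at hr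
    obtain ⟨s, hs, rfl⟩ := hr
    rw [List.mem_range] at hs
    refine sz_listNat (by simp [rowv, hn]) ?_
    intro x hx
    rw [rowv, List.mem_map] at hx
    obtain ⟨v, hv, rfl⟩ := hx
    rw [List.mem_range] at hv
    exact cnt_Ls_le _ _ _ _ _ _ (by omega) hv
  refine (sz_le_length_mul _ _ h1).trans ?_
  simp only [List.length_map, List.length_range, Polynomial.eval_add, Polynomial.eval_mul,
    Polynomial.eval_X, Polynomial.eval_one, Polynomial.eval_ofNat]
  have : (k + 1) * (n * (4 * ((n + 1) * (2 * n + 1)) + 6) + 1 + 1) ≤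
      (n + 1) * (n * (4 * ((n + 1) * (2 * n + 1)) + 6) + 2) :=
    Nat.mul_le_mul (by omega) le_rfl
  omega

/-- Counts with a root in the current set. -/
def roots (p : Par) : List ℕ := (table p).map (fun row => ((List.range p.1.length).map
  (fun v => bif zf p.2.2.1 v then row.getD v 0 else 0)).sum)

theorem roots_poly : NPC.Poly roots :=
  NPC.Poly.map (F := fun (p : Par) (row : List ℕ) => ((List.range p.1.length).map
    (fun v => bif zf p.2.2.1 v then row.getD v 0 else 0)).sum) table_poly
    (sumRange (F := fun (p : Par × List ℕ) v => bif zf p.1.2.2.1 v then p.2.getD v 0 else 0)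
      (NPC.Poly.fst (NPC.Poly.fst NPC.Poly.id)) (NPC.Poly.cond (zf_poly.comp (NPC.Poly.pair
        (NPC.Poly.fst (NPC.Poly.snd (NPC.Poly.snd (NPC.Poly.fst (NPC.Poly.fst NPC.Poly.id)))))
        (NPC.Poly.snd NPC.Poly.id))) (NPC.Poly.getD (NPC.Poly.snd (NPC.Poly.fst NPC.Poly.id))
          (NPC.Poly.snd NPC.Poly.id) (NPC.Poly.const 0)) (NPC.Poly.const 0)))

theorem cnt_Root (X : ℕ → Bool) (E : ℕ → ℕ → Bool) (A : ℕ → Bool) (n : ℕ) (z : ℕ → Bool) (s : ℕ) :
    cnt X (Root E A n z s) =
      ((List.range n).map (fun v => bif z v then cnt X (Ls E A n s v) else 0)).sum := by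
  rw [Root, cnt_flatMap]
  congr 1
  refine List.map_congr_left fun v _ => ?_
  cases z v <;> simp [cnt_nil]

theorem roots_eq (p : Par) : roots p = (List.range (p.1.length + 1)).map (fun s =>
    cnt (zf p.2.2.2) (Root (ent p.1) (al p) p.1.length (zf p.2.2.1) s)) := by
  rw [roots, table, iter_table, List.map_map]
  refine List.map_congr_left fun s _ => ?_
  rw [Function.comp_apply, cnt_Root]
  congr 1
  refine List.map_congr_left fun v hv => ?_
  rw [List.mem_range] at hv
  rw [rowv, getD_map_range _ _ _ hv]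

theorem cnt_Root_le (X : ℕ → Bool) (E : ℕ → ℕ → Bool) (A : ℕ → Bool) (n : ℕ) (z : ℕ → Bool)
    (s : ℕ) (hs : s ≤ n) : cnt X (Root E A n z s) ≤ 2 ^ ((n + 1) * (2 * n + 1)) := by
  refine le_trans ?_ ((sum_cnt_le X E A n s hs).trans (two_pow_bound hs))
  rw [cnt_Root]
  apply List.sum_le_sum
  intro v _
  cases z v <;> simp

/-- An entry of the convolution. -/
def convEnt (q : (List ℕ × List ℕ) × ℕ) : ℕ :=
  ((List.range q.1.2.length).map (fun j => bif decide (j < q.2) then
    q.1.1.getD j 0 * q.1.2.getD (q.2 - 1 - j) 0 else 0)).sum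

theorem convEnt_poly : NPC.Poly convEnt :=
  sumRange (F := fun (q : (List ℕ × List ℕ) × ℕ) j => bif decide (j < q.2) then
    q.1.1.getD j 0 * q.1.2.getD (q.2 - 1 - j) 0 else 0) (NPC.Poly.snd (NPC.Poly.fst NPC.Poly.id))
    (NPC.Poly.cond (NPC.Poly.decide_lt (NPC.Poly.snd NPC.Poly.id)
        (NPC.Poly.snd (NPC.Poly.fst NPC.Poly.id)))
      (NPC.Poly.mul (NPC.Poly.getD (NPC.Poly.fst (NPC.Poly.fst (NPC.Poly.fst NPC.Poly.id)))
        (NPC.Poly.snd NPC.Poly.id) (NPC.Poly.const 0))
        (NPC.Poly.getD (NPC.Poly.snd (NPC.Poly.fst (NPC.Poly.fst NPC.Poly.id)))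
          (NPC.Poly.sub (NPC.Poly.sub (NPC.Poly.snd (NPC.Poly.fst NPC.Poly.id)) (NPC.Poly.const 1))
            (NPC.Poly.snd NPC.Poly.id)) (NPC.Poly.const 0)))
      (NPC.Poly.const 0))

/-- The convolution. -/
def conv (q : List ℕ × List ℕ) : List ℕ := (List.range q.2.length).map (fun m => convEnt (q, m))

theorem conv_poly : NPC.Poly conv :=
  mapRange (F := fun (q : List ℕ × List ℕ) m => convEnt (q, m)) (NPC.Poly.snd NPC.Poly.id)
    convEnt_poly

/-- Adjacency matrix, terminal sets, vertex subset. -/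
abbrev Par' : Type := Mat × Mat × List Bool

/-- The number of nonterminals in `X`. -/
def cn (a : Par') : ℕ :=
  ((List.range a.1.length).map (fun v => bif (nt a.2.1 v && zf a.2.2 v) then 1 else 0)).sum

theorem cn_poly : NPC.Poly cn :=
  sumRange (F := fun (a : Par') v => bif (nt a.2.1 v && zf a.2.2 v) then 1 else 0)
    (NPC.Poly.fst NPC.Poly.id) (NPC.Poly.cond (NPC.Poly.and
      (nt_poly.comp (NPC.Poly.pair (NPC.Poly.fst (NPC.Poly.snd (NPC.Poly.fst NPC.Poly.id)))
        (NPC.Poly.snd NPC.Poly.id)))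
      (zf_poly.comp (NPC.Poly.pair (NPC.Poly.snd (NPC.Poly.snd (NPC.Poly.fst NPC.Poly.id)))
        (NPC.Poly.snd NPC.Poly.id)))) (NPC.Poly.const 1) (NPC.Poly.const 0))

theorem cn_le (a : Par') : cn a ≤ a.1.length := by
  unfold cn
  calc _ ≤ ((List.range a.1.length).map (fun _ => 1)).sum := by
        apply List.sum_le_sum
        intro v _
        cases (nt a.2.1 v && zf a.2.2 v) <;> simp
    _ = _ := by simp

/-- One more power. -/
def addPow (a : Par') (P : List ℕ) : List ℕ := 1 :: P.map (fun x => cn a * x)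

theorem addPow_poly : NPC.Poly (fun q : Par' × List ℕ => addPow q.1 q.2) :=
  NPC.Poly.cons (NPC.Poly.const 1) (NPC.Poly.map
    (F := fun (q : Par' × List ℕ) (x : ℕ) => cn q.1 * x) (NPC.Poly.snd NPC.Poly.id)
    (NPC.Poly.mul (cn_poly.comp (NPC.Poly.fst (NPC.Poly.fst NPC.Poly.id)))
      (NPC.Poly.snd NPC.Poly.id)))

theorem iter_addPow (a : Par') (k : ℕ) :
    (addPow a)^[k] [1] = (List.range (k + 1)).map (fun m => cn a ^ m) := by
  induction k with
  | zero => rfl
  | succ k ih =>
    rw [Function.iterate_succ_apply', ih, addPow, List.range_succ_eq_map (n := k + 1), List.map_cons,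
      List.map_map, List.map_map, pow_zero]
    congr 1
    refine List.map_congr_left fun m _ => ?_
    simp only [Function.comp_apply, Nat.succ_eq_add_one, pow_succ]
    ring

/-- The powers. -/
def pows (a : Par') : List ℕ := (addPow a)^[a.1.length] [1]

theorem cn_pow_le (a : Par') {m : ℕ} (hm : m ≤ a.1.length) :
    cn a ^ m ≤ 2 ^ ((a.1.length + 1) * (2 * a.1.length + 1)) := by
  calc cn a ^ m ≤ (2 ^ (a.1.length + 1)) ^ m := by
        apply Nat.pow_le_pow_left
        have h1 := cn_le a
        have h2 : a.1.length + 1 < 2 ^ (a.1.length + 1) := Nat.lt_two_pow_self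
        omega
    _ = 2 ^ ((a.1.length + 1) * m) := by rw [← pow_mul]
    _ ≤ _ := Nat.pow_le_pow_right (by norm_num) (Nat.mul_le_mul_left _ (by omega))

theorem n_le_sz' (a : Par') : a.1.length ≤ sz a := by
  have h1 := length_le_sz a.1
  have h2 : sz a = sz a.1 + sz a.2 + 1 := sz_pair a.1 a.2
  omega

theorem pows_poly : NPC.Poly pows := by
  refine NPC.Poly.iterLen (l := fun p : Par' => p.1) (s := fun p => [1])
    (F := fun p R => addPow p R) (NPC.Poly.fst NPC.Poly.id) (NPC.Poly.const [1]) addPow_poly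
    ((Polynomial.X + 1) * (4 * ((Polynomial.X + 1) * (2 * Polynomial.X + 1)) + 6) + 1) ?_
  intro a k hk
  refine le_trans ?_ (eval_mono _ (n_le_sz' a))
  rw [iter_addPow]
  refine (sz_listNat (L := a.1.length + 1) (B := (a.1.length + 1) * (2 * a.1.length + 1))
    (by simp; exact hk) ?_).trans ?_
  · intro x hx
    rw [List.mem_map] at hx
    obtain ⟨m, hm, rfl⟩ := hx
    rw [List.mem_range] at hm
    exact cn_pow_le a (by omega)
  · simp only [Polynomial.eval_add, Polynomial.eval_mul,
      Polynomial.eval_X, Polynomial.eval_one, Polynomial.eval_ofNat]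
    exact le_rfl

theorem cnt_Dm (a : Par') (m : ℕ) : cnt (zf a.2.2) (Dm (nt a.2.1) a.1.length m) = cn a ^ m := by
  induction m with
  | zero => rfl
  | succ m ih =>
    rw [Dm, cnt_cat, ih, pow_succ, mul_comm]
    congr 1
    rw [cnt_flatMap, cn]
    congr 1
    refine List.map_congr_left fun v _ => ?_
    cases h1 : nt a.2.1 v <;> cases h2 : zf a.2.2 v <;> simp [cnt, h2]

/-- Process one more terminal set. -/
def stepF (a : Par') (z : List Bool) (F : List ℕ) : List ℕ :=
  conv (roots (a.1, a.2.1, z, a.2.2), F)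

theorem stepF_poly : NPC.Poly (fun q : Par' × List Bool × List ℕ => stepF q.1 q.2.1 q.2.2) :=
  conv_poly.comp (NPC.Poly.pair (roots_poly.comp (NPC.Poly.pair (NPC.Poly.fst (NPC.Poly.fst NPC.Poly.id))
    (NPC.Poly.pair (NPC.Poly.fst (NPC.Poly.snd (NPC.Poly.fst NPC.Poly.id))) (NPC.Poly.pair
      (NPC.Poly.fst (NPC.Poly.snd NPC.Poly.id))
      (NPC.Poly.snd (NPC.Poly.snd (NPC.Poly.fst NPC.Poly.id)))))))
    (NPC.Poly.snd (NPC.Poly.snd NPC.Poly.id)))

theorem cnt_Fs_cons (X : ℕ → Bool) (E : ℕ → ℕ → Bool) (N : ℕ → Bool) (n : ℕ) (z : ℕ → Bool)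
    (zs : List (ℕ → Bool)) (m : ℕ) : cnt X (Fs E N n (z :: zs) m) = ((List.range m).map (fun j =>
      cnt X (Root E (fun v => N v || z v) n z j) * cnt X (Fs E N n zs (m - 1 - j)))).sum := by
  rw [Fs, cnt_flatMap]
  congr 1
  refine List.map_congr_left fun j _ => ?_
  rw [cnt_cat]

theorem foldr_eq (a : Par') : ∀ zs : List (List Bool),
    zs.foldr (stepF a) (pows a) = (List.range (a.1.length + 1)).map (fun m =>
      cnt (zf a.2.2) (Fs (ent a.1) (nt a.2.1) a.1.length (zs.map zf) m)) := by
  intro zs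
  induction zs with
  | nil =>
    rw [List.foldr_nil, pows, iter_addPow]
    refine List.map_congr_left fun m _ => ?_
    rw [List.map_nil, Fs, cnt_Dm]
  | cons z zs ih =>
    rw [List.foldr_cons, ih, stepF, conv]
    simp only [List.length_map, List.length_range]
    refine List.map_congr_left fun m hm => ?_
    rw [List.mem_range] at hm
    rw [List.map_cons, cnt_Fs_cons, convEnt, roots_eq]
    simp only [List.length_map, List.length_range]
    rw [lsum_eq, lsum_eq]
    have hsub : Finset.range m ⊆ Finset.range (a.1.length + 1) := by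
      intro x hx
      rw [Finset.mem_range] at hx ⊢
      omega
    rw [← Finset.sum_subset hsub]
    · refine Finset.sum_congr rfl fun j hj => ?_
      rw [Finset.mem_range] at hj
      rw [getD_map_range _ _ _ (by omega : j < a.1.length + 1),
        getD_map_range _ _ _ (by omega : m - 1 - j < a.1.length + 1)]
      simp only [hj, decide_true, cond_true]
      rfl
    · intro j _ hj
      rw [Finset.mem_range] at hj
      simp [hj]

theorem cnt_Fs_le (a : Par') : ∀ (zs : List (List Bool)) (m : ℕ), m ≤ a.1.length →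
    cnt (zf a.2.2) (Fs (ent a.1) (nt a.2.1) a.1.length (zs.map zf) m) ≤
      2 ^ ((zs.length + 1) * ((a.1.length + 1) * (2 * a.1.length + 2))) := by
  intro zs
  set n := a.1.length with hn
  induction zs with
  | nil =>
    intro m hm
    rw [List.map_nil, Fs, cnt_Dm]
    refine (cn_pow_le a hm).trans (Nat.pow_le_pow_right (by norm_num) ?_)
    simp only [List.length_nil, zero_add, one_mul]
    exact Nat.mul_le_mul_left _ (by omega)
  | cons z zs ih =>
    intro m hm
    rw [List.map_cons, cnt_Fs_cons]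
    set D := (n + 1) * (2 * n + 2) with hD
    calc _ ≤ ((List.range m).map (fun _ => 2 ^ ((n + 1) * (2 * n + 1)) *
            2 ^ ((zs.length + 1) * D))).sum := by
          apply List.sum_le_sum
          intro j hj
          rw [List.mem_range] at hj
          exact Nat.mul_le_mul (cnt_Root_le _ _ _ _ _ _ (by omega)) (ih _ (by omega))
      _ = m * (2 ^ ((n + 1) * (2 * n + 1)) * 2 ^ ((zs.length + 1) * D)) := by simp
      _ ≤ 2 ^ (n + 1) * (2 ^ ((n + 1) * (2 * n + 1)) * 2 ^ ((zs.length + 1) * D)) := by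
          apply Nat.mul_le_mul_right
          have : n + 1 < 2 ^ (n + 1) := Nat.lt_two_pow_self
          omega
      _ = 2 ^ (((z :: zs).length + 1) * D) := by
          rw [← pow_add, ← pow_add]
          congr 1
          rw [List.length_cons, hD]
          ring

/-- The number of tuples inside `X`. -/
def val (a : Par') : ℕ := (a.2.1.foldr (stepF a) (pows a)).getD a.1.length 0

theorem val_eq (a : Par') : val a =
    cnt (zf a.2.2) (Fs (ent a.1) (nt a.2.1) a.1.length (a.2.1.map zf) a.1.length) := by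
  rw [val, foldr_eq, getD_map_range _ _ _ (by omega)]

theorem Z_le_sz (a : Par') : a.2.1.length ≤ sz a := by
  have h1 := length_le_sz a.2.1
  have h2 : sz a = sz a.1 + sz a.2 + 1 := sz_pair a.1 a.2
  have h3 : sz a.2 = sz a.2.1 + sz a.2.2 + 1 := sz_pair a.2.1 a.2.2
  omega

theorem val_poly : NPC.Poly val := by
  refine NPC.Poly.getD (NPC.Poly.foldr (l := fun a : Par' => a.2.1) (s := fun a => pows a)
    (F := fun a z F => stepF a z F) (NPC.Poly.fst (NPC.Poly.snd NPC.Poly.id)) pows_poly stepF_poly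
    ((Polynomial.X + 1) * (4 * ((Polynomial.X + 1) * ((Polynomial.X + 1) * (2 * Polynomial.X + 2)))
      + 6) + 1) ?_) (NPC.Poly.length (NPC.Poly.fst NPC.Poly.id)) (NPC.Poly.const 0)
  intro a k hk
  rw [foldr_eq]
  have hn := n_le_sz' a
  have hZ := Z_le_sz a
  refine (sz_listNat (L := sz a + 1) (B := (sz a + 1) * ((sz a + 1) * (2 * sz a + 2)))
    (by simp; exact hn) ?_).trans ?_
  · intro x hx
    rw [List.mem_map] at hx
    obtain ⟨m, hm, rfl⟩ := hx
    rw [List.mem_range] at hm
    refine (cnt_Fs_le a _ m (by omega)).trans (Nat.pow_le_pow_right (by norm_num) ?_)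
    apply Nat.mul_le_mul
    · rw [List.length_drop]
      omega
    · exact Nat.mul_le_mul (by omega) (by omega)
  · simp only [Polynomial.eval_add, Polynomial.eval_mul,
      Polynomial.eval_X, Polynomial.eval_one, Polynomial.eval_ofNat]
    exact le_rfl

end Pool.Agent.W956.DCS
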