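import Mathlib

/-!
# Counting branching lists, inclusion-exclusion, and disjoint connected subgraphs
-/

set_option autoImplicit false

namespace Pool.Agent.W956.DCS

/-- The number of lists in `L` all of whose entries satisfy `X`. -/
def cnt (X : ℕ → Bool) (L : List (List ℕ)) : ℕ := L.countP (fun l => l.all X)

/-- All concatenations. -/
def cat (A B : List (List ℕ)) : List (List ℕ) := A.flatMap (fun r => B.map (fun c => r ++ c))

theorem cnt_nil (X : ℕ → Bool) : cnt X [] = 0 := rfl

theorem cnt_append (X : ℕ → Bool) (A B : List (List ℕ)) : cnt X (A ++ B) = cnt X A + cnt X B :=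
  List.countP_append ..

theorem cnt_flatMap {β : Type} (X : ℕ → Bool) (l : List β) (f : β → List (List ℕ)) :
    cnt X (l.flatMap f) = (l.map (fun b => cnt X (f b))).sum := by
  induction l with
  | nil => rfl
  | cons a l ih => rw [List.flatMap_cons, cnt_append, ih]; rfl

theorem cnt_map_append (X : ℕ → Bool) (r : List ℕ) (B : List (List ℕ)) :
    cnt X (B.map (fun c => r ++ c)) = if r.all X then cnt X B else 0 := by
  induction B with
  | nil => simp [cnt]
  | cons b B ih =>
    have h1 : cnt X ((b :: B).map (fun c => r ++ c)) =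
        cnt X (B.map (fun c => r ++ c)) + if (r ++ b).all X then 1 else 0 := by
      simp [cnt, List.countP_cons]
    have h2 : cnt X (b :: B) = cnt X B + if b.all X then 1 else 0 := by
      simp [cnt, List.countP_cons]
    rw [h1, h2, ih, List.all_append]
    cases r.all X <;> cases b.all X <;> simp

theorem cnt_cat (X : ℕ → Bool) (A B : List (List ℕ)) : cnt X (cat A B) = cnt X A * cnt X B := by
  induction A with
  | nil => simp [cat, cnt]
  | cons r A ih =>
    have h1 : cat (r :: A) B = B.map (fun c => r ++ c) ++ cat A B := by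
      simp [cat, List.flatMap_cons]
    have h2 : cnt X (r :: A) = cnt X A + if r.all X then 1 else 0 := by
      simp [cnt, List.countP_cons]
    rw [h1, cnt_append, ih, h2, cnt_map_append]
    cases r.all X <;> simp
    ring

theorem mem_cat {A B : List (List ℕ)} {l : List ℕ} :
    l ∈ cat A B ↔ ∃ r ∈ A, ∃ c ∈ B, l = r ++ c := by
  simp only [cat, List.mem_flatMap, List.mem_map]
  constructor
  · rintro ⟨r, hr, c, hc, rfl⟩; exact ⟨r, hr, c, hc, rfl⟩
  · rintro ⟨r, hr, c, hc, rfl⟩; exact ⟨r, hr, c, hc, rfl⟩

/-! ### Inclusion-exclusion over counters -/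

/-- Number of ones in the binary expansion. -/
def ones (c : ℕ) : ℕ := (c.bits.filter (fun b => b)).length

theorem ones_two_mul (c : ℕ) : ones (2 * c) = ones c := by
  rcases Nat.eq_zero_or_pos c with rfl | hc
  · rfl
  · unfold ones
    have : (2 * c).bits = false :: c.bits := by
      exact Nat.bit0_bits c hc.ne'
    rw [this]
    simp

theorem ones_two_mul_add_one (c : ℕ) : ones (2 * c + 1) = ones c + 1 := by
  unfold ones
  have : (2 * c + 1).bits = true :: c.bits := by
    exact Nat.bit1_bits c
  rw [this]
  simp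

theorem getD_bits (c v : ℕ) : c.bits.getD v false = c.testBit v := by
  rw [Nat.testBit_eq_inth, List.getI_eq_getElem?_getD, List.getD_eq_getElem?_getD]
  rfl

theorem sum_range_two_mul (g : ℕ → ℤ) (m : ℕ) :
    ∑ c ∈ Finset.range (2 * m), g c = ∑ c ∈ Finset.range m, (g (2 * c) + g (2 * c + 1)) := by
  induction m with
  | zero => simp
  | succ m ih =>
    rw [show 2 * (m + 1) = 2 * m + 1 + 1 by ring, Finset.sum_range_succ, Finset.sum_range_succ, ih,
      Finset.sum_range_succ]
    ring

/-- Indicator. -/
noncomputable def ind (p : Prop) : ℤ := open Classical in if p then 1 else 0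

theorem ind_true {p : Prop} (h : p) : ind p = 1 := if_pos h
theorem ind_false {p : Prop} (h : ¬ p) : ind p = 0 := if_neg h
theorem ind_congr {p q : Prop} (h : p ↔ q) : ind p = ind q := by rw [propext h]
theorem ind_and (p q : Prop) : ind (p ∧ q) = ind p * ind q := by
  by_cases hp : p
  · by_cases hq : q
    · rw [ind_true ⟨hp, hq⟩, ind_true hp, ind_true hq]; rfl
    · rw [ind_false (fun h => hq h.2), ind_false hq]; ring
  · rw [ind_false (fun h => hp h.1), ind_false hp]; ring

theorem ie (n : ℕ) : ∀ S : ℕ → Prop,
    ∑ c ∈ Finset.range (2 ^ n), (-1 : ℤ) ^ ones c * ind (∀ v < n, S v → c.testBit v = true) =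
    (-1) ^ n * ind (∀ v < n, S v) := by
  induction n with
  | zero => intro S; simp [ones, ind]
  | succ n ih =>
    intro S
    rw [pow_succ 2 n, mul_comm (2 ^ n) 2, sum_range_two_mul]
    have h0 : ∀ c : ℕ, (∀ v < n + 1, S v → (2 * c).testBit v = true) ↔
        (¬ S 0 ∧ ∀ v < n, S (v + 1) → c.testBit v = true) := by
      intro c
      constructor
      · intro h
        refine ⟨fun h0 => ?_, fun v hv hS => ?_⟩
        · have := h 0 (by omega) h0
          simp at this
        · have := h (v + 1) (by omega) hS
          rwa [Nat.testBit_succ, Nat.mul_div_cancel_left _ (by norm_num)] at this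
      · rintro ⟨h1, h2⟩ v hv hS
        cases v with
        | zero => exact absurd hS h1
        | succ v =>
          rw [Nat.testBit_succ, Nat.mul_div_cancel_left _ (by norm_num)]
          exact h2 v (by omega) hS
    have h1 : ∀ c : ℕ, (∀ v < n + 1, S v → (2 * c + 1).testBit v = true) ↔
        (∀ v < n, S (v + 1) → c.testBit v = true) := by
      intro c
      constructor
      · intro h v hv hS
        have := h (v + 1) (by omega) hS
        rwa [Nat.testBit_succ, show (2 * c + 1) / 2 = c by omega] at this
      · intro h2 v hv hS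
        cases v with
        | zero => simp
        | succ v =>
          rw [Nat.testBit_succ, show (2 * c + 1) / 2 = c by omega]
          exact h2 v (by omega) hS
    have h2 : ∀ c ∈ Finset.range (2 ^ n),
        ((-1 : ℤ) ^ ones (2 * c) * ind (∀ v < n + 1, S v → (2 * c).testBit v = true) +
        (-1 : ℤ) ^ ones (2 * c + 1) * ind (∀ v < n + 1, S v → (2 * c + 1).testBit v = true)) =
        (- ind (S 0)) * ((-1 : ℤ) ^ ones c *
          ind (∀ v < n, S (v + 1) → c.testBit v = true)) := by
      intro c _
      rw [ones_two_mul, ones_two_mul_add_one, pow_succ, ind_congr (h0 c), ind_congr (h1 c), ind_and]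
      by_cases hS : S 0
      · rw [ind_true hS, ind_false (not_not.2 hS)]; ring
      · rw [ind_false hS, ind_true hS]; ring
    rw [Finset.sum_congr rfl h2, ← Finset.mul_sum, ih (fun v => S (v + 1))]
    have h3 : (∀ v < n + 1, S v) ↔ (S 0 ∧ ∀ v < n, S (v + 1)) := by
      constructor
      · intro h
        exact ⟨h 0 (by omega), fun v hv => h (v + 1) (by omega)⟩
      · rintro ⟨a, b⟩ v hv
        cases v with
        | zero => exact a
        | succ v => exact b v (by omega)
    rw [ind_congr h3, ind_and, pow_succ]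
    ring

/-- The list covers `0, …, n - 1`. -/
def Covers (n : ℕ) (l : List ℕ) : Prop := ∀ v < n, v ∈ l

instance (n : ℕ) (l : List ℕ) : Decidable (Covers n l) :=
  inferInstanceAs (Decidable (∀ v < n, v ∈ l))

theorem ie_cnt (n : ℕ) (L : List (List ℕ)) (hL : ∀ l ∈ L, ∀ v ∈ l, v < n) :
    ∑ c ∈ Finset.range (2 ^ n), (-1 : ℤ) ^ ones c * (cnt (fun v => c.testBit v) L : ℤ) =
      (-1) ^ n * (L.countP (fun l => decide (Covers n l)) : ℤ) := by
  induction L with
  | nil => simp [cnt]
  | cons l L ih =>
    have h1 : ∀ c : ℕ, (cnt (fun v => c.testBit v) (l :: L) : ℤ) =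
        cnt (fun v => c.testBit v) L + ind (∀ v < n, v ∈ l → c.testBit v = true) := by
      intro c
      have : (l.all (fun v => c.testBit v) = true) ↔ ∀ v < n, v ∈ l → c.testBit v = true := by
        rw [List.all_eq_true]
        exact ⟨fun h v _ hv => h v hv, fun h v hv => h v (hL l (by simp) v hv) hv⟩
      rw [← ind_congr this]
      simp only [cnt, List.countP_cons, ind]
      push_cast
      congr 1
      split_ifs <;> rfl
    simp only [h1, mul_add, Finset.sum_add_distrib]
    rw [ih (fun l hl => hL l (by simp [hl])), ie n (fun v => v ∈ l), List.countP_cons]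
    by_cases hc : Covers n l
    · have hc' : ∀ v < n, v ∈ l := hc
      rw [ind_true hc']
      simp [hc]
      ring
    · have hc' : ¬ ∀ v < n, v ∈ l := hc
      rw [ind_false hc']
      simp [hc]

/-! ### Branching lists -/

/-- The lists of length `s + 1` of branching walks from `v`. -/
def Ls (E : ℕ → ℕ → Bool) (A : ℕ → Bool) (n : ℕ) : ℕ → ℕ → List (List ℕ)
  | 0, v => if A v then [[v]] else []
  | s + 1, v => (List.finRange (s + 1)).flatMap fun t =>
      (List.range n).flatMap fun u =>
        if E v u then cat (Ls E A n (s - t.1) v) (Ls E A n t.1 u) else []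
termination_by s => s
decreasing_by
  all_goals omega

/-- Branching lists. -/
inductive Br (E : ℕ → ℕ → Bool) (A : ℕ → Bool) (n : ℕ) : ℕ → List ℕ → Prop
  | single {v : ℕ} : A v = true → Br E A n v [v]
  | join {v u : ℕ} {r c : List ℕ} : Br E A n v r → u < n → E v u = true → Br E A n u c →
      Br E A n v (r ++ c)

variable {E : ℕ → ℕ → Bool} {A : ℕ → Bool} {n : ℕ}

theorem Br.length_pos {v : ℕ} {l : List ℕ} (h : Br E A n v l) : 0 < l.length := by
  induction h with
  | single _ => simp
  | join _ _ _ _ ih _ => simp; omega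

theorem Br.mem {v : ℕ} {l : List ℕ} (h : Br E A n v l) : v ∈ l := by
  induction h with
  | single _ => simp
  | join _ _ _ _ ih _ => simp [ih]

theorem Br.lt {v : ℕ} {l : List ℕ} (h : Br E A n v l) (hv : v < n) : ∀ x ∈ l, x < n := by
  induction h with
  | single _ => intro x hx; simp at hx; omega
  | join _ hu _ _ ih ih' =>
    intro x hx
    rcases List.mem_append.1 hx with h | h
    · exact ih hv x h
    · exact ih' hu x h

theorem Br.allowed {v : ℕ} {l : List ℕ} (h : Br E A n v l) : ∀ x ∈ l, A x = true := by
  induction h with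
  | single h => intro x hx; simp at hx; rw [hx]; exact h
  | join _ _ _ _ ih ih' =>
    intro x hx
    rcases List.mem_append.1 hx with h | h
    · exact ih x h
    · exact ih' x h

theorem br_of_mem_Ls : ∀ (s v : ℕ) (l : List ℕ), l ∈ Ls E A n s v →
    Br E A n v l ∧ l.length = s + 1 := by
  intro s
  induction s using Nat.strong_induction_on with
  | _ s ih =>
    intro v l hl
    cases s with
    | zero =>
      rw [Ls] at hl
      split_ifs at hl with h
      · simp at hl
        subst hl
        exact ⟨Br.single h, rfl⟩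
      · simp at hl
    | succ s =>
      rw [Ls] at hl
      simp only [List.mem_flatMap] at hl
      obtain ⟨t, _, u, hu, hl⟩ := hl
      split_ifs at hl with h
      · obtain ⟨r, hr, c, hc, rfl⟩ := mem_cat.1 hl
        obtain ⟨h1, h2⟩ := ih (s - t.1) (by omega) v r hr
        obtain ⟨h3, h4⟩ := ih t.1 (by omega) u c hc
        refine ⟨Br.join h1 (List.mem_range.1 hu) h h3, ?_⟩
        rw [List.length_append, h2, h4]
        omega
      · simp at hl

theorem Br.mem_Ls {v : ℕ} {l : List ℕ} (h : Br E A n v l) :
    ∀ s, l.length = s + 1 → l ∈ Ls E A n s v := by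
  induction h with
  | single h =>
    intro s hs
    have : s = 0 := by simp at hs; omega
    subst this
    rw [Ls, if_pos h]
    simp
  | @join v u r c h1 hu hE h2 ih1 ih2 =>
    intro s hs
    have p1 := h1.length_pos
    have p2 := h2.length_pos
    rw [List.length_append] at hs
    obtain ⟨s', rfl⟩ : ∃ s', s = s' + 1 := ⟨s - 1, by omega⟩
    rw [Ls]
    simp only [List.mem_flatMap]
    refine ⟨⟨c.length - 1, by omega⟩, List.mem_finRange _, u, List.mem_range.2 hu, ?_⟩
    rw [if_pos hE]
    refine mem_cat.2 ⟨r, ih1 _ ?_, c, ih2 _ ?_, rfl⟩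
    · simp only; omega
    · simp only; omega

theorem Br.insert {v : ℕ} {l : List ℕ} (h : Br E A n v l) :
    ∀ x w, x ∈ l → w < n → E x w = true → A w = true → ∃ l', Br E A n v l' ∧ l'.Perm (w :: l) := by
  induction h with
  | @single v hv =>
    intro x w hx hw hE hA
    have : x = v := by simpa using hx
    subst this
    exact ⟨[x] ++ [w], Br.join (Br.single hv) hw hE (Br.single hA), List.Perm.swap w x []⟩
  | @join v u r c h1 hu hE' h2 ih1 ih2 =>
    intro x w hx hw hE hA
    rcases List.mem_append.1 hx with h | h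
    · obtain ⟨r', hr', hp⟩ := ih1 x w h hw hE hA
      exact ⟨r' ++ c, Br.join hr' hu hE' h2, by simpa using hp.append_right c⟩
    · obtain ⟨c', hc', hp⟩ := ih2 x w h hw hE hA
      refine ⟨r ++ c', Br.join h1 hu hE' hc', ?_⟩
      exact (hp.append_left r).trans List.perm_middle

/-! ### All tuples -/

/-- Lists of length `m` of vertices with property `N`. -/
def Dm (N : ℕ → Bool) (n : ℕ) : ℕ → List (List ℕ)
  | 0 => [[]]
  | m + 1 => cat ((List.range n).flatMap (fun v => if N v then [[v]] else [])) (Dm N n m)

theorem mem_Dm {N : ℕ → Bool} : ∀ (m : ℕ) (l : List ℕ),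
    l ∈ Dm N n m ↔ l.length = m ∧ ∀ x ∈ l, x < n ∧ N x = true := by
  intro m
  induction m with
  | zero =>
    intro l
    rw [Dm]
    constructor
    · intro h
      have : l = [] := by simpa using h
      subst this
      simp
    · rintro ⟨h, _⟩
      rw [List.eq_nil_of_length_eq_zero h]
      simp
  | succ m ih =>
    intro l
    rw [Dm, mem_cat]
    constructor
    · rintro ⟨r, hr, c, hc, rfl⟩
      rw [List.mem_flatMap] at hr
      obtain ⟨v, hv, hr⟩ := hr
      split_ifs at hr with h
      · have : r = [v] := by simpa using hr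
        subst this
        obtain ⟨h1, h2⟩ := (ih c).1 hc
        refine ⟨by simp [h1], ?_⟩
        intro x hx
        rcases List.mem_append.1 hx with h' | h'
        · have : x = v := by simpa using h'
          subst this
          exact ⟨List.mem_range.1 hv, h⟩
        · exact h2 x h'
      · simp at hr
    · rintro ⟨h1, h2⟩
      cases l with
      | nil => simp at h1
      | cons v l =>
        refine ⟨[v], ?_, l, (ih l).2 ⟨by simpa using h1, fun x hx => h2 x (by simp [hx])⟩, rfl⟩
        rw [List.mem_flatMap]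
        have := h2 v (by simp)
        exact ⟨v, List.mem_range.2 this.1, by rw [if_pos this.2]; simp⟩

/-- Branching lists from a root in `z`. -/
def Root (E : ℕ → ℕ → Bool) (A : ℕ → Bool) (n : ℕ) (z : ℕ → Bool) (s : ℕ) : List (List ℕ) :=
  (List.range n).flatMap (fun v => if z v then Ls E A n s v else [])

/-- Tuples of branching lists, followed by a list of nonterminals. -/
def Fs (E : ℕ → ℕ → Bool) (N : ℕ → Bool) (n : ℕ) : List (ℕ → Bool) → ℕ → List (List ℕ)
  | [], m => Dm N n m
  | z :: zs, m => (List.range m).flatMap fun j =>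
      cat (Root E (fun v => N v || z v) n z j) (Fs E N n zs (m - 1 - j))

theorem mem_Root {z : ℕ → Bool} {s : ℕ} {l : List ℕ} :
    l ∈ Root E A n z s ↔ l.length = s + 1 ∧ ∃ v < n, z v = true ∧ Br E A n v l := by
  unfold Root
  rw [List.mem_flatMap]
  constructor
  · rintro ⟨v, hv, h⟩
    split_ifs at h with hz
    · obtain ⟨h1, h2⟩ := br_of_mem_Ls s v l h
      exact ⟨h2, v, List.mem_range.1 hv, hz, h1⟩
    · simp at h
  · rintro ⟨h1, v, hv, hz, h2⟩
    exact ⟨v, List.mem_range.2 hv, by rw [if_pos hz]; exact h2.mem_Ls s h1⟩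

theorem mem_Fs {N : ℕ → Bool} : ∀ (zs : List (ℕ → Bool)) (m : ℕ) (l : List ℕ),
    l ∈ Fs E N n zs m ↔ l.length = m ∧ ∃ (Ps : List (List ℕ)) (d : List ℕ), l = Ps.flatten ++ d ∧
      List.Forall₂ (fun z p => ∃ v < n, z v = true ∧ Br E (fun v => N v || z v) n v p) zs Ps ∧
      ∀ x ∈ d, x < n ∧ N x = true := by
  intro zs
  induction zs with
  | nil =>
    intro m l
    rw [Fs, mem_Dm]
    constructor
    · rintro ⟨h1, h2⟩
      exact ⟨h1, [], l, rfl, List.Forall₂.nil, h2⟩
    · rintro ⟨h1, Ps, d, hl, hP, h2⟩
      cases hP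
      simp at hl
      subst hl
      exact ⟨h1, h2⟩
  | cons z zs ih =>
    intro m l
    rw [Fs, List.mem_flatMap]
    constructor
    · rintro ⟨j, hj, h⟩
      rw [List.mem_range] at hj
      obtain ⟨r, hr, c, hc, rfl⟩ := mem_cat.1 h
      obtain ⟨h1, h2⟩ := mem_Root.1 hr
      obtain ⟨h3, Ps, d, rfl, hP, hd⟩ := (ih _ c).1 hc
      refine ⟨by rw [List.length_append, h1, h3]; omega, r :: Ps, d, by simp,
        List.Forall₂.cons h2 hP, hd⟩
    · rintro ⟨h1, Ps, d, rfl, hP, hd⟩
      cases hP with
      | @cons _ p _ Ps h2 hP =>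
        have hp : 0 < p.length := by
          obtain ⟨v, _, _, hb⟩ := h2
          exact hb.length_pos
        have e : (List.flatten (p :: Ps) ++ d).length = p.length + (Ps.flatten ++ d).length := by
          simp only [List.flatten_cons, List.append_assoc, List.length_append]
        rw [e] at h1
        refine ⟨p.length - 1, List.mem_range.2 (by omega), mem_cat.2 ⟨p, ?_, Ps.flatten ++ d, ?_, ?_⟩⟩
        · exact mem_Root.2 ⟨by omega, h2⟩
        · exact (ih _ _).2 ⟨by omega, Ps, d, rfl, hP, hd⟩
        · simp

theorem lt_of_mem_Fs {N : ℕ → Bool} {zs : List (ℕ → Bool)} {m : ℕ} {l : List ℕ}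
    (h : l ∈ Fs E N n zs m) : ∀ x ∈ l, x < n := by
  obtain ⟨_, Ps, d, rfl, hP, hd⟩ := (mem_Fs zs m l).1 h
  intro x hx
  rcases List.mem_append.1 hx with h | h
  · rw [List.mem_flatten] at h
    obtain ⟨p, hp, hx⟩ := h
    obtain ⟨z, _, v, hv, _, hb⟩ : ∃ z ∈ zs, ∃ v < n, z v = true ∧
        Br E (fun v => N v || z v) n v p := by
      obtain ⟨i, hi, rfl⟩ := List.getElem_of_mem hp
      have hi' : i < zs.length := by rw [hP.length_eq]; exact hi
      exact ⟨zs[i], List.getElem_mem _, (List.forall₂_iff_get.1 hP).2 i hi' hi⟩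
    exact hb.lt hv x hx
  · exact (hd x h).1

end Pool.Agent.W956.DCS
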