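import Pool.Agent.W956.DCS.Alg

/-!
# The loop over all vertex subsets
-/

set_option autoImplicit false
set_option maxHeartbeats 400000

namespace Pool.Agent.W956.DCS

open Pool.Agent.NPC

/-- States of the loop: the instance, a counter, two accumulators. -/
abbrev St : Type := (Mat × Mat) × ℕ × ℕ × ℕ

/-- The initial state. -/
def initS (I : Mat × Mat) : St := (I, valB (I.1.map (fun _ => false) ++ [true]), 0, 0)

/-- The number of tuples inside the `c`-th subset. -/
def valc (I : Mat × Mat) (c : ℕ) : ℕ := val (I.1, I.2, c.bits)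

/-- Continue? -/
def moreS (s : St) : Bool := decide (1 < s.2.1)

/-- The answer. -/
def outS (s : St) : Bool := !decide (s.2.2.1 = s.2.2.2)

theorem initS_poly : NPC.Poly initS :=
  NPC.Poly.pair NPC.Poly.id (NPC.Poly.pair (NPC.Poly.valBits (NPC.Poly.append
    (NPC.Poly.map (F := fun (_ : Mat × Mat) (_ : List Bool) => false) (NPC.Poly.fst NPC.Poly.id)
      (NPC.Poly.const false)) (NPC.Poly.const [true])))
    (NPC.Poly.pair (NPC.Poly.const 0) (NPC.Poly.const 0)))

theorem ones_poly : NPC.Poly ones :=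
  NPC.Poly.length (NPC.Poly.filter (p := fun (_ : ℕ) (b : Bool) => b)
    (NPC.Poly.natBits NPC.Poly.id) (NPC.Poly.snd NPC.Poly.id))

theorem valc_poly : NPC.Poly (fun q : (Mat × Mat) × ℕ => valc q.1 q.2) :=
  val_poly.comp (NPC.Poly.pair (NPC.Poly.fst (NPC.Poly.fst NPC.Poly.id))
    (NPC.Poly.pair (NPC.Poly.snd (NPC.Poly.fst NPC.Poly.id))
      (NPC.Poly.natBits (NPC.Poly.snd NPC.Poly.id))))

/-- The parity test. -/
def par (s : St) : Bool := decide (ones (s.2.1 - 1) % 2 = 0)

/-- The next value. -/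
def nv (s : St) : ℕ := valc s.1 (s.2.1 - 1)

theorem cdec_poly : NPC.Poly (fun s : St => s.2.1 - 1) :=
  NPC.Poly.sub (NPC.Poly.fst (NPC.Poly.snd NPC.Poly.id)) (NPC.Poly.const 1)

theorem par_poly : NPC.Poly par := by
  have h1 := ones_poly.comp cdec_poly
  have h2 : NPC.Poly (fun s : St => ones (s.2.1 - 1) % 2) := NPC.Poly.mod h1 (NPC.Poly.const 2)
  exact NPC.Poly.decide_eq h2 (NPC.Poly.const 0)

theorem nv_poly : NPC.Poly nv := by
  have h1 : NPC.Poly (fun s : St => ((s.1, s.2.1 - 1) : (Mat × Mat) × ℕ)) :=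
    NPC.Poly.pair (NPC.Poly.fst NPC.Poly.id) cdec_poly
  have h2 := valc_poly.comp h1
  exact h2

/-- One step. -/
def stepS (s : St) : St :=
  bif par s then (s.1, s.2.1 - 1, s.2.2.1 + nv s, s.2.2.2)
  else (s.1, s.2.1 - 1, s.2.2.1, s.2.2.2 + nv s)

theorem stepS_poly : NPC.Poly stepS := by
  have h1 : NPC.Poly (fun s : St => s.2.2.1) :=
    NPC.Poly.fst (NPC.Poly.snd (NPC.Poly.snd NPC.Poly.id))
  have h2 : NPC.Poly (fun s : St => s.2.2.2) :=
    NPC.Poly.snd (NPC.Poly.snd (NPC.Poly.snd NPC.Poly.id))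
  have h3 : NPC.Poly (fun s : St => s.2.2.1 + nv s) := NPC.Poly.add h1 nv_poly
  have h4 : NPC.Poly (fun s : St => s.2.2.2 + nv s) := NPC.Poly.add h2 nv_poly
  have h5 : NPC.Poly (fun s : St => ((s.1, s.2.1 - 1, s.2.2.1 + nv s, s.2.2.2) : St)) :=
    NPC.Poly.pair (NPC.Poly.fst NPC.Poly.id) (NPC.Poly.pair cdec_poly (NPC.Poly.pair h3 h2))
  have h6 : NPC.Poly (fun s : St => ((s.1, s.2.1 - 1, s.2.2.1, s.2.2.2 + nv s) : St)) :=
    NPC.Poly.pair (NPC.Poly.fst NPC.Poly.id) (NPC.Poly.pair cdec_poly (NPC.Poly.pair h1 h4))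
  exact NPC.Poly.cond par_poly h5 h6

theorem moreS_poly : NPC.Poly moreS :=
  NPC.Poly.decide_lt (NPC.Poly.const 1) (NPC.Poly.fst (NPC.Poly.snd NPC.Poly.id))

theorem outS_poly : NPC.Poly outS :=
  NPC.Poly.not (NPC.Poly.decide_eq (NPC.Poly.fst (NPC.Poly.snd (NPC.Poly.snd NPC.Poly.id)))
    (NPC.Poly.snd (NPC.Poly.snd (NPC.Poly.snd NPC.Poly.id))))

/-- The contribution of `c` to the first accumulator. -/
def ev0 (I : Mat × Mat) (c : ℕ) : ℕ := if ones c % 2 = 0 then valc I c else 0

/-- The contribution of `c` to the second accumulator. -/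
def ev1 (I : Mat × Mat) (c : ℕ) : ℕ := if ones c % 2 = 0 then 0 else valc I c

theorem initS_eq (I : Mat × Mat) : initS I = (I, 2 ^ I.1.length, 0, 0) := by
  unfold initS
  have : I.1.map (fun _ => false) = List.replicate I.1.length false := by
    rw [List.map_const']
  rw [this, valB_replicate_false]
  simp

theorem iter_stepS (I : Mat × Mat) : ∀ k ≤ 2 ^ I.1.length, stepS^[k] (initS I) =
    (I, 2 ^ I.1.length - k, ∑ j ∈ Finset.range k, ev0 I (2 ^ I.1.length - 1 - j),
      ∑ j ∈ Finset.range k, ev1 I (2 ^ I.1.length - 1 - j)) := by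
  intro k
  induction k with
  | zero => intro _; rw [Function.iterate_zero_apply, initS_eq]; simp
  | succ k ih =>
    intro hk
    rw [Function.iterate_succ_apply', ih (by omega), stepS, par, nv]
    simp only
    rw [show 2 ^ I.1.length - k - 1 = 2 ^ I.1.length - 1 - k by omega, Finset.sum_range_succ,
      Finset.sum_range_succ]
    by_cases h : ones (2 ^ I.1.length - 1 - k) % 2 = 0
    · simp only [h, decide_true, cond_true, ev0, ev1, if_true]
      rw [show 2 ^ I.1.length - (k + 1) = 2 ^ I.1.length - 1 - k by omega]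
      rfl
    · simp only [h, decide_false, cond_false, ev0, ev1, if_false]
      rw [show 2 ^ I.1.length - (k + 1) = 2 ^ I.1.length - 1 - k by omega]
      rfl

theorem iter_end (I : Mat × Mat) : stepS^[2 ^ I.1.length] (initS I) =
    (I, 0, ∑ c ∈ Finset.range (2 ^ I.1.length), ev0 I c,
      ∑ c ∈ Finset.range (2 ^ I.1.length), ev1 I c) := by
  rw [iter_stepS I _ le_rfl, Nat.sub_self, Finset.sum_range_reflect (ev0 I),
    Finset.sum_range_reflect (ev1 I)]

theorem sub_eq (I : Mat × Mat) :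
    ((∑ c ∈ Finset.range (2 ^ I.1.length), ev0 I c : ℕ) : ℤ) -
      ((∑ c ∈ Finset.range (2 ^ I.1.length), ev1 I c : ℕ) : ℤ) =
    (-1) ^ I.1.length * (((Fs (ent I.1) (nt I.2) I.1.length (I.2.map zf) I.1.length).countP
      (fun l => decide (Covers I.1.length l)) : ℕ) : ℤ) := by
  rw [← ie_cnt _ _ (fun l hl => lt_of_mem_Fs hl)]
  push_cast
  rw [← Finset.sum_sub_distrib]
  refine Finset.sum_congr rfl fun c _ => ?_
  have hv : valc I c = cnt (fun v => c.testBit v)
      (Fs (ent I.1) (nt I.2) I.1.length (I.2.map zf) I.1.length) := by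
    rw [valc, val_eq]
    have : zf c.bits = fun v => c.testBit v := by
      funext v
      exact getD_bits c v
    rw [this]
  unfold ev0 ev1
  rw [← hv]
  by_cases h : ones c % 2 = 0
  · have : Even (ones c) := Nat.even_iff.2 h
    simp [h, this.neg_one_pow]
  · have : Odd (ones c) := Nat.odd_iff.2 (by omega)
    simp [h, this.neg_one_pow]

theorem outS_end (I : Mat × Mat) : outS (stepS^[2 ^ I.1.length] (initS I)) =
    decide (∃ l ∈ Fs (ent I.1) (nt I.2) I.1.length (I.2.map zf) I.1.length,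
      Covers I.1.length l) := by
  rw [iter_end, outS]
  simp only
  have h := sub_eq I
  set P := ∑ c ∈ Finset.range (2 ^ I.1.length), ev0 I c
  set Q := ∑ c ∈ Finset.range (2 ^ I.1.length), ev1 I c
  set K := (Fs (ent I.1) (nt I.2) I.1.length (I.2.map zf) I.1.length).countP
      (fun l => decide (Covers I.1.length l)) with hK
  have h1 : (P = Q) ↔ K = 0 := by
    constructor
    · intro hPQ
      rw [hPQ, sub_self] at h
      have := h.symm
      rw [mul_eq_zero] at this
      rcases this with h' | h'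
      · exact absurd h' (pow_ne_zero _ (by norm_num))
      · exact_mod_cast h'
    · intro hK0
      rw [hK0] at h
      simp only [Nat.cast_zero, mul_zero] at h
      have : (P : ℤ) = Q := by linarith
      exact_mod_cast this
  have h2 : K ≠ 0 ↔ ∃ l ∈ Fs (ent I.1) (nt I.2) I.1.length (I.2.map zf) I.1.length,
      Covers I.1.length l := by
    rw [← Nat.pos_iff_ne_zero, hK, List.countP_pos_iff]
    simp
  rw [Bool.eq_iff_iff]
  simp only [Bool.not_eq_true', decide_eq_false_iff_not, decide_eq_true_eq]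
  rw [h1]
  exact h2

/-! ### Sizes -/

theorem valc_le (I : Mat × Mat) (c : ℕ) : valc I c ≤
    2 ^ ((I.2.length + 1) * ((I.1.length + 1) * (2 * I.1.length + 2))) := by
  rw [valc, val_eq]
  exact cnt_Fs_le (I.1, I.2, c.bits) I.2 I.1.length le_rfl

theorem sum_le {f : ℕ → ℕ} {B n k : ℕ} (hf : ∀ c, f c ≤ 2 ^ B) (hk : k ≤ 2 ^ n) (g : ℕ → ℕ) :
    ∑ j ∈ Finset.range k, f (g j) ≤ 2 ^ (n + B) := by
  calc ∑ j ∈ Finset.range k, f (g j) ≤ ∑ _j ∈ Finset.range k, 2 ^ B :=
        Finset.sum_le_sum fun j _ => hf _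
    _ = k * 2 ^ B := by simp
    _ ≤ 2 ^ n * 2 ^ B := Nat.mul_le_mul_right _ hk
    _ = _ := by rw [pow_add]

theorem sz_iter (I : Mat × Mat) : ∀ k ≤ 2 ^ I.1.length, sz (stepS^[k] (initS I)) ≤
    ((Polynomial.X + (4 * Polynomial.X + 5) + 2 * (4 * (Polynomial.X +
      (Polynomial.X + 1) * ((Polynomial.X + 1) * (2 * Polynomial.X + 2))) + 5) + 3 :
        Polynomial ℕ)).eval (sz I) := by
  intro k hk
  have hpair : ∀ c p q : ℕ, sz ((I, c, p, q) : St) = sz I + (sz c + (sz p + sz q + 1) + 1) + 1 := by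
    intro c p q
    rw [sz_pair I (c, p, q), sz_pair c (p, q), sz_pair p q]
  rw [iter_stepS I k hk, hpair]
  have hn : I.1.length ≤ sz I := by
    have h1 := length_le_sz I.1
    have h2 : sz I = sz I.1 + sz I.2 + 1 := sz_pair I.1 I.2
    omega
  have hZ : I.2.length ≤ sz I := by
    have h1 := length_le_sz I.2
    have h2 : sz I = sz I.1 + sz I.2 + 1 := sz_pair I.1 I.2
    omega
  set x := sz I with hx
  set D := (x + 1) * ((x + 1) * (2 * x + 2)) with hD
  have hD' : (I.2.length + 1) * ((I.1.length + 1) * (2 * I.1.length + 2)) ≤ D :=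
    Nat.mul_le_mul (by omega) (Nat.mul_le_mul (by omega) (by omega))
  have hv : ∀ c, valc I c ≤ 2 ^ D := fun c =>
    (valc_le I c).trans (Nat.pow_le_pow_right (by norm_num) hD')
  have h0 : ∀ c, ev0 I c ≤ 2 ^ D := by
    intro c
    unfold ev0
    split_ifs
    · exact hv c
    · exact Nat.zero_le _
  have h1 : ∀ c, ev1 I c ≤ 2 ^ D := by
    intro c
    unfold ev1
    split_ifs
    · exact Nat.zero_le _
    · exact hv c
  have hk' : k ≤ 2 ^ x := hk.trans (Nat.pow_le_pow_right (by norm_num) hn)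
  have s0 := sz_of_le (sum_le h0 hk' (fun j => 2 ^ I.1.length - 1 - j))
  have s1 := sz_of_le (sum_le h1 hk' (fun j => 2 ^ I.1.length - 1 - j))
  have s2 : sz (2 ^ I.1.length - k) ≤ 4 * x + 5 :=
    sz_of_le ((Nat.sub_le _ _).trans (Nat.pow_le_pow_right (by norm_num) hn))
  simp only [Polynomial.eval_add, Polynomial.eval_mul,
      Polynomial.eval_X, Polynomial.eval_one, Polynomial.eval_ofNat]
  rw [← hD]
  omega

/-- One machine answers the covering question for all pairs of matrices. -/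
theorem machine : ∃ (M : Turing.TM2ComputableAux Bool Bool) (P : Polynomial ℕ),
    ∀ I : Mat × Mat,
      Nonempty (Turing.TM2OutputsInTime M.tm ((bits I).map M.inputAlphabet.invFun)
        (some ([decide (∃ l ∈ Fs (ent I.1) (nt I.2) I.1.length (I.2.map zf) I.1.length,
          Covers I.1.length l)].map M.outputAlphabet.invFun))
        (2 ^ I.1.length * P.eval (sz I))) := by
  have hpos : ∀ I : Mat × Mat, 2 ^ I.1.length - 1 + 1 = 2 ^ I.1.length := by
    intro I
    have : 0 < 2 ^ I.1.length := by positivity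
    omega
  obtain ⟨M, P, h⟩ := exists_machine (fun I : Mat × Mat => I) initS_poly stepS_poly moreS_poly
    outS_poly (Polynomial.X + (4 * Polynomial.X + 5) + 2 * (4 * (Polynomial.X +
      (Polynomial.X + 1) * ((Polynomial.X + 1) * (2 * Polynomial.X + 2))) + 5) + 3)
    (fun I => 2 ^ I.1.length - 1) (by
      intro I k hk
      have h0 := hpos I
      rw [iter_stepS I k (by omega), moreS]
      simp only [decide_eq_true_eq]
      omega) (by
      intro I
      have h0 := hpos I
      rw [iter_stepS I _ (by omega), moreS]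
      simp only [decide_eq_false_iff_not]
      omega) (by
      intro I k hk
      rw [hpos] at hk
      exact sz_iter I k hk)
  refine ⟨M, P, fun I => ?_⟩
  have h1 := h I
  rw [hpos] at h1
  rw [outS_end] at h1
  exact h1

end Pool.Agent.W956.DCS
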