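import Pool.Agent.W956.DCS.Loop

/-!
# Disjoint Connected Subgraphs in time `2 ^ n * poly n`
-/

set_option autoImplicit false
set_option maxHeartbeats 400000

namespace Pool.Agent.W956.DCS

open Pool.Agent.NPC

open Classical in
/-- The adjacency matrix of a graph on `Fin n`, as the list of its rows. -/
noncomputable def adjM {n : ℕ} (G : SimpleGraph (Fin n)) : List (List Bool) :=
  List.ofFn fun i => List.ofFn fun j => decide (G.Adj i j)

/-- The characteristic vectors of the terminal sets. -/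
def setM {n k : ℕ} (Z : Fin k → Finset (Fin n)) : List (List Bool) :=
  List.ofFn fun i => List.ofFn fun v => decide (v ∈ Z i)

/-- The input word of the instance `(G, Z)`: the code of the pair of the adjacency matrix of `G`
and the list of the characteristic vectors of the terminal sets. -/
noncomputable def code {n k : ℕ} (G : SimpleGraph (Fin n)) (Z : Fin k → Finset (Fin n)) :
    List Bool :=
  bits (adjM G, setM Z)

theorem getD_ofFn {α : Type} {n : ℕ} (f : Fin n → α) (d : α) (i : Fin n) :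
    (List.ofFn f).getD i d = f i := by
  rw [List.getD_eq_getElem?_getD, List.getElem?_eq_getElem (by simp), List.getElem_ofFn]
  rfl

theorem length_adjM {n : ℕ} (G : SimpleGraph (Fin n)) : (adjM G).length = n := by simp [adjM]

theorem ent_adjM {n : ℕ} (G : SimpleGraph (Fin n)) (u v : Fin n) :
    ent (adjM G) u v = true ↔ G.Adj u v := by
  rw [ent, adjM, getD_ofFn, getD_ofFn]
  simp

theorem nt_setM {n k : ℕ} (Z : Fin k → Finset (Fin n)) (v : Fin n) :
    nt (setM Z) v = true ↔ ∀ i, v ∉ Z i := by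
  rw [nt, List.all_eq_true]
  constructor
  · intro h i
    have := h (List.ofFn fun v => decide (v ∈ Z i)) (by rw [setM, List.mem_ofFn]; exact ⟨i, rfl⟩)
    rw [getD_ofFn] at this
    simpa using this
  · intro h x hx
    rw [setM, List.mem_ofFn] at hx
    obtain ⟨i, rfl⟩ := hx
    rw [getD_ofFn]
    simpa using h i

theorem map_setM {n k : ℕ} (Z : Fin k → Finset (Fin n)) :
    (setM Z).map zf = List.ofFn (fun i => zf (List.ofFn fun v => decide (v ∈ Z i))) := by
  rw [setM, List.map_ofFn]
  rfl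

theorem cover_iff {n k : ℕ} (G : SimpleGraph (Fin n)) (Z : Fin k → Finset (Fin n))
    (hne : ∀ i, (Z i).Nonempty) (hdis : ∀ i j, i ≠ j → Disjoint (Z i) (Z j)) :
    (∃ l ∈ Fs (ent (adjM G)) (nt (setM Z)) n ((setM Z).map zf) n, Covers n l) ↔ HasDCS G Z := by
  rw [map_setM]
  refine exists_covers_iff (ent_adjM G) ?_ (nt_setM Z) hne hdis
  intro i v
  rw [zf, getD_ofFn]
  simp

theorem card_le {n k : ℕ} {Z : Fin k → Finset (Fin n)}
    (hne : ∀ i, (Z i).Nonempty) (hdis : ∀ i j, i ≠ j → Disjoint (Z i) (Z j)) : k ≤ n := by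
  choose r hr using hne
  have hinj : Function.Injective r := by
    intro i j hij
    by_contra hne
    exact Finset.disjoint_left.1 (hdis i j hne) (hr i) (hij ▸ hr j)
  simpa using Fintype.card_le_of_injective r hinj

theorem sz_mat {n k : ℕ} (hk : k ≤ n) (f : Fin k → Fin n → Bool) :
    sz (List.ofFn fun i => List.ofFn fun v => f i v) ≤ n * (n * 4 + 2) + 1 := by
  have h1 : ∀ a ∈ (List.ofFn fun i => List.ofFn fun v => f i v), sz a ≤ n * 4 + 1 := by
    intro a ha
    rw [List.mem_ofFn] at ha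
    obtain ⟨i, rfl⟩ := ha
    have := sz_le_length_mul (List.ofFn fun v => f i v) 3 (fun b _ => sz_bool_le b)
    simpa using this
  have h2 := sz_le_length_mul _ _ h1
  rw [List.length_ofFn] at h2
  have h3 : k * (n * 4 + 1 + 1) ≤ n * (n * 4 + 2) := Nat.mul_le_mul hk le_rfl
  omega

theorem sz_code {n k : ℕ} (hk : k ≤ n) (G : SimpleGraph (Fin n)) (Z : Fin k → Finset (Fin n)) :
    sz (adjM G, setM Z) ≤ 2 * (n * (n * 4 + 2) + 1) + 1 := by
  rw [sz_pair]
  have h1 : sz (adjM G) ≤ n * (n * 4 + 2) + 1 := sz_mat le_rfl _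
  have h2 : sz (setM Z) ≤ n * (n * 4 + 2) + 1 := sz_mat hk _
  omega

open Classical in
theorem main : ∃ (M : Turing.TM2ComputableAux Bool Bool) (p : Polynomial ℕ),
    ∀ (n k : ℕ) (G : SimpleGraph (Fin n)) (Z : Fin k → Finset (Fin n)),
      (∀ i, (Z i).Nonempty) → (∀ i j, i ≠ j → Disjoint (Z i) (Z j)) →
      Nonempty (Turing.TM2OutputsInTime M.tm ((code G Z).map M.inputAlphabet.invFun)
        (some ([decide (HasDCS G Z)].map M.outputAlphabet.invFun)) (2 ^ n * p.eval n)) := by
  obtain ⟨M, P, h⟩ := machine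
  refine ⟨M, P.comp (2 * (Polynomial.X * (Polynomial.X * 4 + 2) + 1) + 1), ?_⟩
  intro n k G Z hne hdis
  obtain ⟨h⟩ := h (adjM G, setM Z)
  simp only [length_adjM] at h
  have h1 : 2 ^ n * P.eval (sz (adjM G, setM Z)) ≤
      2 ^ n * (P.comp (2 * (Polynomial.X * (Polynomial.X * 4 + 2) + 1) + 1)).eval n := by
    apply Nat.mul_le_mul_left
    rw [Polynomial.eval_comp]
    apply eval_mono
    refine (sz_code (card_le hne hdis) G Z).trans (le_of_eq ?_)
    simp only [Polynomial.eval_add, Polynomial.eval_mul,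
      Polynomial.eval_X, Polynomial.eval_one, Polynomial.eval_ofNat]
  have h2 : ∀ inst : Decidable (∃ l ∈ Fs (ent (adjM G)) (nt (setM Z)) n ((setM Z).map zf) n,
      Covers n l), @decide _ inst = decide (HasDCS G Z) := by
    intro inst
    exact decide_eq_decide.2 (cover_iff G Z hne hdis)
  rw [h2] at h
  exact ⟨outputs_conv rfl rfl h1 h⟩

end Pool.Agent.W956.DCS
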