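import Pool.Agent.NPC.Num
import Pool.Agent.NPC.Dec

/-!
# While loops of polynomial-time steps

A machine that iterates a polynomial-time step `N` times, where the states stay small, runs in time
`N` times a polynomial.
-/

set_option autoImplicit false

namespace Pool.Agent.W956.DCS

open Pool.Agent.NPC Turing

/-- The body of the loop. -/
def body (c : Cmd ℕ) : Cmd ℕ := Cmd.seq (clr 1) (Cmd.seq c (Cmd.seq split (Cmd.pop 1)))

theorem while_runs {σ : Type} [TEnc σ] {f : σ → σ} {g : σ → Bool} {c : Cmd ℕ} {p : Polynomial ℕ}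
    (h : ∀ s : σ, Runs c (inp (bits s)) (inp (T.node (toT (g s)) (toT (f s))).enc)
      (p.eval (bits s).length)) (B : ℕ) :
    ∀ (N : ℕ) (s : σ) (m : List Bool), m ≠ [] → m.length ≤ 3 →
      (∀ k < N, g (f^[k] s) = true) → g (f^[N] s) = false → (∀ k ≤ N, sz (f^[k] s) ≤ B) →
      Runs (Cmd.loop 1 (body c)) (st (bits s) m []) (st (bits (f^[N + 1] s)) [] [])
        ((p.eval B + 40) * (N + 1) + 1) := by
  have step : ∀ (s : σ) (m : List Bool), m.length ≤ 3 → sz s ≤ B →
      Runs (body c) (st (bits s) m [])
        (st (bits (f s)) (toT (g s)).enc.reverse.tail []) (p.eval B + 39) := by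
    intro s m hm hs
    have h1 := clr_runs (i := 1) m (st (bits s) m []) (st (bits s) [] []) (by simp) (by simp)
    have h2 := h s
    rw [inp_eq_st, inp_eq_st] at h2
    have h3 := split_runs (toT (g s)) (toT (f s))
    have h4 : Runs (Cmd.pop 1) (st (toT (f s)).enc (toT (g s)).enc.reverse [])
        (st (toT (f s)).enc (toT (g s)).enc.reverse.tail []) 1 :=
      (Runs.pop _ 1).conv rfl (by simp) le_rfl
    refine (h1.seq (h2.seq (h3.seq h4))).mono ?_
    have e1 : p.eval (bits s).length ≤ p.eval B := eval_mono p hs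
    have e2 : (toT (g s)).size ≤ 3 := sz_bool_le (g s)
    omega
  intro N
  induction N with
  | zero =>
    intro s m hm hm3 _ h0 hsz
    have h1 := step s m hm3 (hsz 0 le_rfl)
    have hg : g s = false := h0
    rw [hg] at h1
    refine (Runs.loopCons (by simpa using hm) h1 (Runs.loopNil (by rfl))).conv rfl ?_ ?_
    · rfl
    · omega
  | succ N ih =>
    intro s m hm hm3 hlt h0 hsz
    have h1 := step s m hm3 (hsz 0 (Nat.zero_le _))
    have hg : g s = true := hlt 0 (by omega)
    rw [hg] at h1
    have h2 := ih (f s) (toT true).enc.reverse.tail (by decide) (by decide)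
      (fun k hk => by
        rw [← Function.iterate_succ_apply]
        exact hlt (k + 1) (by omega))
      (by rw [← Function.iterate_succ_apply]; exact h0)
      (fun k hk => by
        rw [← Function.iterate_succ_apply]
        exact hsz (k + 1) (by omega))
    refine (Runs.loopCons (by simpa using hm) h1 h2).conv rfl ?_ ?_
    · rw [← Function.iterate_succ_apply]
    · ring_nf
      omega

/-- **Loops.** Suppose that `init`, `step`, `out` and the test `more` are computable in polynomial
time. Then one machine computes `a ↦ out (step^[N + 1] (init a))`, where `N` is the first number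
for which the test fails, in time `(N + 2) * poly(size)`, if all the intermediate states
have polynomially bounded size. -/
theorem exists_machine {ι α σ : Type} [TEnc α] [TEnc σ] (e : ι → α) {init : α → σ} {step : σ → σ}
    {more : σ → Bool} {out : σ → Bool} (hi : Poly init) (hs : Poly step) (hm : Poly more)
    (ho : Poly out) (q : Polynomial ℕ) (N : ι → ℕ)
    (h1 : ∀ x, ∀ k < N x, more (step^[k] (init (e x))) = true)
    (h2 : ∀ x, more (step^[N x] (init (e x))) = false)
    (hsz : ∀ x, ∀ k ≤ N x + 1, sz (step^[k] (init (e x))) ≤ q.eval (sz (e x))) :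
    ∃ (M : Turing.TM2ComputableAux Bool Bool) (P : Polynomial ℕ), ∀ x,
      Nonempty (Turing.TM2OutputsInTime M.tm ((bits (e x)).map M.inputAlphabet.invFun)
        (some ([out (step^[N x + 1] (init (e x)))].map M.outputAlphabet.invFun))
        ((N x + 1) * P.eval (sz (e x)))) := by
  have hT : Poly (fun s : σ => T.node (toT (more s)) (toT (step s))) :=
    Poly.node (Poly.toT' hm) (Poly.toT' hs)
  obtain ⟨cI, pI, hI⟩ := hi
  obtain ⟨cT, pT, hT⟩ := hT
  obtain ⟨cO, pO, hO⟩ := (PC.comp PC.rawBool ho : PC (bits : σ → List Bool) (fun x => x) _)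
  set c := Cmd.seq cI (Cmd.seq (Cmd.push 1 true) (Cmd.seq (Cmd.loop 1 (body cT)) cO)) with hc
  set P : Polynomial ℕ := pI + (pT.comp q + 40) + 3 + pO.comp q with hP
  have key : ∀ x, Runs c (inp (bits (e x))) (inp [out (step^[N x + 1] (init (e x)))])
      ((N x + 1) * (P.eval (sz (e x))) - 1) := by
    intro x
    have r1 := hI (e x)
    have r2 : Runs (Cmd.push 1 true) (st (bits (init (e x))) [] [])
        (st (bits (init (e x))) [true] []) 1 := (Runs.push _ 1 true).conv rfl (by simp) le_rfl
    have r3 := while_runs hT (q.eval (sz (e x))) (N x) (init (e x)) [true] (by decide) (by decide)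
      (h1 x) (h2 x) (fun k hk => hsz x k (by omega))
    have r4 := hO (step^[N x + 1] (init (e x)))
    rw [inp_eq_st, inp_eq_st] at r1 r4
    rw [inp_eq_st, inp_eq_st]
    refine (r1.seq (r2.seq (r3.seq r4))).mono ?_
    have e1 : pI.eval (bits (e x)).length = pI.eval (sz (e x)) := rfl
    have e2 : pO.eval (bits (step^[N x + 1] (init (e x)))).length ≤
        pO.eval (q.eval (sz (e x))) := eval_mono pO (hsz x _ le_rfl)
    have e3 : P.eval (sz (e x)) = pI.eval (sz (e x)) + (pT.eval (q.eval (sz (e x))) + 40) + 3 +
        pO.eval (q.eval (sz (e x))) := by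
      simp [hP, Polynomial.eval_add, Polynomial.eval_comp]
    rw [e1, e3]
    set a := pI.eval (sz (e x))
    set b := pT.eval (q.eval (sz (e x)))
    set d := pO.eval (q.eval (sz (e x)))
    have e4 : (N x + 1) * (a + (b + 40) + 3 + d) = (b + 40) * (N x + 1) + (a + d + 3) * (N x + 1) := by
      ring
    have e5 : (a + d + 3) ≤ (a + d + 3) * (N x + 1) := Nat.le_mul_of_pos_right _ (by omega)
    omega
  refine ⟨⟨(c.map (Fin.ofNat (c.bd + 1))).toTM, Equiv.refl Bool, Equiv.refl Bool⟩, P,
    fun x => ?_⟩
  obtain ⟨t, ht, hr⟩ := key x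
  generalize [out (step^[N x + 1] (init (e x)))] = y at *
  have h1 := hr.restrict (n := c.bd) (by omega)
  have hpos : 0 < (N x + 1) * P.eval (sz (e x)) := by
    apply Nat.mul_pos (by omega)
    simp [hP, Polynomial.eval_add, Polynomial.eval_comp]
  have h3 : Nonempty (TM2OutputsInTime (c.map (Fin.ofNat (c.bd + 1))).toTM (bits (e x))
      (some y) (t + 1)) := by
    refine toTM_outputs ?_
    convert! h1 using 1
    · funext i
      by_cases hi : i = 0
      · subst hi; simp [inp]
      · have : (i : ℕ) ≠ 0 := fun h => hi (Fin.ext h)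
        simp [inp, hi, this]
    · funext i
      by_cases hi : i = 0
      · subst hi; simp [inp]
      · have : (i : ℕ) ≠ 0 := fun h => hi (Fin.ext h)
        simp [inp, hi, this]
  obtain ⟨h3⟩ := h3
  exact ⟨outputs_conv (List.map_id _).symm (List.map_id _).symm (by omega) h3⟩

end Pool.Agent.W956.DCS
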